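import Pool.Agent.H16M.Tame

/-!
# Elementary amenable groups are tame
-/

set_option autoImplicit false

open Filter

universe u v

namespace Pool.Agent.H16M

/-- Elementary amenable groups: the smallest class of groups which contains the finite and the
abelian groups and is closed under subgroups, quotients, extensions and directed unions (a group
is in the class if all its finitely generated subgroups are). -/
inductive ElemAmenable : (G : Type u) → Group G → Prop
  | finite (G : Type u) [i : Group G] (h : Finite G) : ElemAmenable G i
  | comm (G : Type u) [i : Group G] (h : ∀ a b : G, a * b = b * a) : ElemAmenable G i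
  | sub {G H : Type u} [i : Group G] [j : Group H] (f : G →* H) (hf : Function.Injective f)
      (h : ElemAmenable H j) : ElemAmenable G i
  | quot {G H : Type u} [i : Group G] [j : Group H] (f : H →* G) (hf : Function.Surjective f)
      (h : ElemAmenable H j) : ElemAmenable G i
  | ext {G N Q : Type u} [i : Group G] [j : Group N] [l : Group Q] (f : N →* G) (g : G →* Q)
      (hf : Function.Injective f) (hg : Function.Surjective g) (hfg : f.range = g.ker)
      (hN : ElemAmenable N j) (hQ : ElemAmenable Q l) : ElemAmenable G i
  | union {G : Type u} [i : Group G]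
      (h : ∀ L : Subgroup G, L.FG → ElemAmenable L inferInstance) : ElemAmenable G i

variable {I : Type} {𝓕 : I → Type u} [∀ i, Group (𝓕 i)]

lemma tame_of_comm' {A : Type u} [i : Group A] (h : ∀ a b : A, a * b = b * a) : Tame 𝓕 A := by
  let _ : CommGroup A := { i with mul_comm := h }
  exact tame_of_comm A

lemma tame_of_equiv {G H : Type u} [Group G] [Group H] (e : G ≃* H) (h : Tame 𝓕 H) : Tame 𝓕 G :=
  tame_of_injective e.toMonoidHom e.injective h

theorem subquotients_tame {G : Type u} {i : Group G} (h : ElemAmenable G i) :
    ∀ (K : Type u) [Group K] (M : Subgroup G) (q : M →* K), Function.Surjective q → Tame 𝓕 K := by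
  classical
  induction h with
  | finite G hG =>
    intro K _ M q hq
    have : Finite K := Finite.of_surjective q hq
    exact tame_of_finite K
  | comm G hG =>
    intro K _ M q hq
    apply tame_of_comm'
    intro a b
    obtain ⟨a, rfl⟩ := hq a
    obtain ⟨b, rfl⟩ := hq b
    rw [← map_mul, ← map_mul]
    congr 1
    exact Subtype.ext (hG a b)
  | @sub G H i j f hf _ ih =>
    intro K _ M q hq
    let e : M ≃* M.map f := M.equivMapOfInjective f hf
    exact ih K (M.map f) (q.comp e.symm.toMonoidHom) (hq.comp e.symm.surjective)
  | @quot G H i j f hf _ ih =>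
    intro K _ M q hq
    let r : M.comap f →* M := (f.comp (M.comap f).subtype).codRestrict M (fun x => x.2)
    have hr : Function.Surjective r := by
      rintro ⟨y, hy⟩
      obtain ⟨x, rfl⟩ := hf y
      exact ⟨⟨x, hy⟩, rfl⟩
    exact ih K (M.comap f) (q.comp r) (hq.comp hr)
  | @ext G N Q i j l f g hf hg hfg _ _ ihN ihQ =>
    intro K _ M q hq
    -- the image of `M ∩ N` in `K`
    let A : Subgroup K := (g.ker.subgroupOf M).map q
    have hA0 : (g.ker.subgroupOf M).Normal := inferInstance
    have hA : A.Normal := hA0.map q hq
    refine tame_of_ext (QuotientGroup.mk' A) ?_ ?_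
    · rw [QuotientGroup.ker_mk']
      -- `A` is a quotient of the subgroup `M.comap f` of `N`
      let r : M.comap f →* A := (q.comp ((f.comp (M.comap f).subtype).codRestrict M
        (fun x => x.2))).codRestrict A (fun x => by
          refine ⟨⟨f x, x.2⟩, ?_, rfl⟩
          change f x ∈ g.ker
          rw [← hfg]
          exact ⟨x, rfl⟩)
      apply ihN A (M.comap f) r
      rintro ⟨y, ⟨x, hx, rfl⟩⟩
      have hx' : (x : G) ∈ f.range := by rw [hfg]; exact hx
      obtain ⟨n, hn⟩ := hx'
      refine ⟨⟨n, ?_⟩, ?_⟩
      · change f n ∈ M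
        rw [hn]
        exact x.2
      · apply Subtype.ext
        change q ⟨f n, _⟩ = q x
        congr 1
        exact Subtype.ext hn
    · -- `K ⧸ A` is a quotient of the image of `M` in `Q`
      let ρ : M →* M.map g := (g.comp M.subtype).codRestrict (M.map g) (fun x => ⟨x, x.2, rfl⟩)
      have hρ : Function.Surjective ρ := by
        rintro ⟨y, ⟨x, hx, rfl⟩⟩
        exact ⟨⟨x, hx⟩, rfl⟩
      let s : M →* K ⧸ A := (QuotientGroup.mk' A).comp q
      have hker : ρ.ker ≤ s.ker := by
        intro x hx
        rw [MonoidHom.mem_ker] at hx ⊢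
        have h1 : g x = 1 := congrArg Subtype.val hx
        change (QuotientGroup.mk' A) (q x) = 1
        rw [← MonoidHom.mem_ker, QuotientGroup.ker_mk']
        exact ⟨x, h1, rfl⟩
      let t : M.map g →* K ⧸ A :=
        (QuotientGroup.lift ρ.ker s hker).comp
          (QuotientGroup.quotientKerEquivOfSurjective ρ hρ).symm.toMonoidHom
      apply ihQ (K ⧸ A) (M.map g) t
      have hs : Function.Surjective s := (QuotientGroup.mk'_surjective A).comp hq
      intro y
      obtain ⟨x, rfl⟩ := hs y
      refine ⟨ρ x, ?_⟩
      change (QuotientGroup.lift ρ.ker s hker)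
        ((QuotientGroup.quotientKerEquivOfSurjective ρ hρ).symm (ρ x)) = s x
      have h2 : (QuotientGroup.quotientKerEquivOfSurjective ρ hρ).symm (ρ x) =
          (x : M ⧸ ρ.ker) := by
        rw [MulEquiv.symm_apply_eq]
        rfl
      rw [h2]
      rfl
  | @union G i _ ih =>
    intro K _ M q hq
    apply tame_of_local
    intro L hL
    obtain ⟨X, hX⟩ := hL
    choose p hp using hq
    -- the subgroup of `G` generated by preimages of the generators
    let Y : Finset G := X.image (fun x => ((p x : M) : G))
    let R : Subgroup G := Subgroup.closure (Y : Set G)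
    have hR : R.FG := ⟨Y, rfl⟩
    have hRM : R ≤ M := by
      rw [Subgroup.closure_le]
      intro y hy
      simp only [Y, Finset.coe_image] at hy
      obtain ⟨x, -, rfl⟩ := hy
      exact (p x).2
    let r : R →* K := q.comp (Subgroup.inclusion hRM)
    have hrange : r.range = L := by
      apply le_antisymm
      · rintro _ ⟨⟨y, hy⟩, rfl⟩
        change q ⟨y, hRM hy⟩ ∈ L
        have h1 : R ≤ (L.comap q).map M.subtype := by
          rw [Subgroup.closure_le]
          intro y hy
          simp only [Y, Finset.coe_image] at hy
          obtain ⟨x, hx, rfl⟩ := hy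
          refine ⟨p x, ?_, rfl⟩
          change q (p x) ∈ L
          rw [hp, ← hX]
          exact Subgroup.subset_closure hx
        obtain ⟨z, hz, hzy⟩ := h1 hy
        have h2 : z = ⟨y, hRM hy⟩ := Subtype.ext hzy
        rw [← h2]
        exact hz
      · rw [← hX, Subgroup.closure_le]
        intro x hx
        have h1 : ((p x : M) : G) ∈ R := by
          apply Subgroup.subset_closure
          simp only [Y, Finset.coe_image]
          exact ⟨x, hx, rfl⟩
        refine ⟨⟨_, h1⟩, ?_⟩
        exact hp x
    let r' : (⊤ : Subgroup R) →* L := (r.comp (Subgroup.subtype _)).codRestrict L (fun x => by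
      rw [← hrange]
      exact ⟨x, rfl⟩)
    apply ih R hR L ⊤ r'
    rintro ⟨y, hy⟩
    rw [← hrange] at hy
    obtain ⟨x, rfl⟩ := hy
    exact ⟨⟨x, trivial⟩, rfl⟩

theorem tame_of_elemAmenable {G : Type u} [i : Group G] (h : ElemAmenable G i) : Tame 𝓕 G := by
  refine subquotients_tame h G ⊤ (Subgroup.subtype _) ?_
  intro x
  exact ⟨⟨x, trivial⟩, rfl⟩

end Pool.Agent.H16M
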