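import Pool.Agent.H16M.Kills

/-!
# Random monster groups: a criterion for super-rigidity
-/

set_option autoImplicit false

open MeasureTheory Filter

open scoped ENNReal NNReal

universe u

namespace Pool.Agent.H16M

section Tree

variable {F : Type} [Group F] {S : LabelSet F} {V : Type} {Ω : SimpleGraph V}

lemma word_cons (α : Labelling S Ω) {u v w : V} (h : Ω.Adj u v) (p : Ω.Walk v w) :
    word α (SimpleGraph.Walk.cons h p) = α.1 ⟨(u, v), h⟩ * word α p := by
  simp [word]

lemma word_append (α : Labelling S Ω) {u v w : V} (p : Ω.Walk u v) (q : Ω.Walk v w) :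
    word α (p.append q) = word α p * word α q := by
  simp [word]

lemma word_reverse (α : Labelling S Ω) {u v : V} (p : Ω.Walk u v) :
    word α p.reverse = (word α p)⁻¹ := by
  induction p with
  | nil => simp [word]
  | @cons u v w h p ih =>
    rw [SimpleGraph.Walk.reverse_cons, word_append, ih, word_cons, word_cons]
    have h5 : α.1 ⟨(v, u), h.symm⟩ = (α.1 ⟨(u, v), h⟩)⁻¹ := α.2.2 ⟨(u, v), h⟩
    rw [h5]
    simp [word]

/-- In an acyclic graph all walks read the same word as the path with the same ends. -/
lemma word_eq_of_acyclic (hΩ : Ω.IsAcyclic) (α : Labelling S Ω) {u v : V} (p : Ω.Walk u v) :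
    ∀ q : Ω.Walk u v, q.IsPath → word α p = word α q := by
  classical
  induction p with
  | nil =>
    intro q hq
    have : q = SimpleGraph.Walk.nil := by
      simpa using hq
    rw [this]
  | @cons u w v h p ih =>
    intro q hq
    rw [word_cons]
    rw [ih p.bypass p.bypass_isPath]
    by_cases hu : u ∈ p.bypass.support
    · -- the path from `w` starts with the edge `wu`
      have hsp := p.bypass.take_spec hu
      have ht : (p.bypass.takeUntil u hu).IsPath := p.bypass_isPath.takeUntil hu
      have hd : (p.bypass.dropUntil u hu).IsPath := p.bypass_isPath.dropUntil hu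
      have he : (SimpleGraph.Walk.cons h.symm SimpleGraph.Walk.nil : Ω.Walk w u).IsPath := by
        simp [h.ne']
      have h1 : (⟨p.bypass.takeUntil u hu, ht⟩ : Ω.Path w u) =
          ⟨SimpleGraph.Walk.cons h.symm SimpleGraph.Walk.nil, he⟩ := (hΩ.subsingleton_path _ _).elim _ _
      have h2 : p.bypass.takeUntil u hu = SimpleGraph.Walk.cons h.symm SimpleGraph.Walk.nil :=
        congrArg Subtype.val h1
      have h3 : (⟨p.bypass.dropUntil u hu, hd⟩ : Ω.Path u v) = ⟨q, hq⟩ := (hΩ.subsingleton_path _ _).elim _ _
      have h4 : p.bypass.dropUntil u hu = q := congrArg Subtype.val h3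
      rw [← hsp, word_append, h2, h4, word_cons]
      have h5 : α.1 ⟨(w, u), h.symm⟩ = (α.1 ⟨(u, w), h⟩)⁻¹ := α.2.2 ⟨(u, w), h⟩
      rw [h5]
      simp [word]
    · have hc : (SimpleGraph.Walk.cons h p.bypass).IsPath := p.bypass_isPath.cons hu
      have h3 : (⟨SimpleGraph.Walk.cons h p.bypass, hc⟩ : Ω.Path u v) = ⟨q, hq⟩ :=
        (hΩ.subsingleton_path _ _).elim _ _
      have h4 : SimpleGraph.Walk.cons h p.bypass = q := congrArg Subtype.val h3
      rw [← h4, word_cons]

lemma word_closed (hΩ : Ω.IsAcyclic) (α : Labelling S Ω) {u : V} (p : Ω.Walk u u) :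
    word α p = 1 := by
  rw [word_eq_of_acyclic hΩ α p SimpleGraph.Walk.nil (by simp)]
  simp [word]

/-- The graph `Ω` maps to the Cayley graph of `G` with respect to `A`: there is a map `x` from the
vertices to `G` with `(x u)⁻¹ x v ∈ A` for all adjacent `u`, `v`. -/
def MapsToCayley {G : Type u} [Group G] (Ω : SimpleGraph V) (A : Set G) : Prop :=
  ∃ x : V → G, ∀ u v, Ω.Adj u v → (x u)⁻¹ * x v ∈ A

/-- A map to the Cayley graph gives a labelling all of whose closed words are killed. -/
lemma exists_labelling {G : Type u} [Group G] (ψ : F →* G)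
    (h : MapsToCayley Ω (ψ '' S.carrier)) :
    ∃ β : Labelling S Ω, ∀ (v : V) (p : Ω.Walk v v), ψ (word β p) = 1 := by
  classical
  obtain ⟨x, hx⟩ := h
  let _ : LinearOrder V := IsWellOrder.linearOrder WellOrderingRel
  have h1 : ∀ e : Ω.Dart, ∃ s ∈ S.carrier, ψ s = (x e.fst)⁻¹ * x e.snd :=
    fun e => hx e.fst e.snd e.adj
  choose c hcS hc using h1
  let β : Labelling S Ω := ⟨fun e => if e.fst < e.snd then c e else (c e.symm)⁻¹, by
    constructor
    · intro e
      dsimp only
      split_ifs
      · exact hcS e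
      · exact S.inv_mem _ (hcS _)
    · intro e
      have hne : e.fst ≠ e.snd := e.adj.ne
      rcases lt_or_gt_of_ne hne with h | h
      · have h' : ¬ (e.snd < e.fst) := not_lt.mpr h.le
        have e1 : ¬ (e.symm.fst < e.symm.snd) := h'
        dsimp only
        rw [if_neg e1, if_pos h, SimpleGraph.Dart.symm_symm]
      · have h' : ¬ (e.fst < e.snd) := not_lt.mpr h.le
        have e1 : e.symm.fst < e.symm.snd := h
        dsimp only
        rw [if_pos e1, if_neg h', inv_inv]⟩
  have hβ : ∀ e : Ω.Dart, ψ (β.1 e) = (x e.fst)⁻¹ * x e.snd := by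
    intro e
    change ψ (if e.fst < e.snd then c e else (c e.symm)⁻¹) = _
    split_ifs
    · exact hc e
    · rw [map_inv, hc]
      change ((x e.snd)⁻¹ * x e.fst)⁻¹ = _
      group
  have hw : ∀ {u v : V} (p : Ω.Walk u v), ψ (word β p) = (x u)⁻¹ * x v := by
    intro u v p
    induction p with
    | nil => simp [word]
    | @cons u v w h p ih =>
      rw [word_cons, map_mul, ih, hβ]
      change (x u)⁻¹ * x v * ((x v)⁻¹ * x w) = _
      group
  exact ⟨β, fun v p => by rw [hw p]; group⟩

/-- A labelling all of whose closed words are killed gives a map to the Cayley graph. -/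
lemma mapsToCayley {G : Type u} [Group G] (ψ : F →* G) (β : Labelling S Ω)
    (h : ∀ (v : V) (p : Ω.Walk v v), ψ (word β p) = 1) :
    MapsToCayley Ω (ψ '' S.carrier) := by
  classical
  -- base points of the components
  have h1 : ∀ v : V, Ω.Reachable (Ω.connectedComponentMk v).out v := by
    intro v
    have := (Ω.connectedComponentMk v).out_eq
    exact SimpleGraph.ConnectedComponent.exact this
  let b : Ω.ConnectedComponent → V := fun c => c.out
  have h2 : ∀ v : V, Nonempty (Ω.Walk (b (Ω.connectedComponentMk v)) v) := fun v => h1 v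
  let p : ∀ v : V, Ω.Walk (b (Ω.connectedComponentMk v)) v := fun v => (h2 v).some
  refine ⟨fun v => ψ (word β (p v)), ?_⟩
  intro u v huv
  have hcomp : Ω.connectedComponentMk u = Ω.connectedComponentMk v :=
    SimpleGraph.ConnectedComponent.sound huv.reachable
  have key : ∀ (c : Ω.ConnectedComponent) (q : Ω.Walk (b c) v), c = Ω.connectedComponentMk u →
      ψ (word β q) = ψ (word β (p u)) * ψ (β.1 ⟨(u, v), huv⟩) := by
    intro c q hc
    subst hc
    have h3 := h _ (((p u).append (SimpleGraph.Walk.cons huv SimpleGraph.Walk.nil)).append q.reverse)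
    rw [word_append, word_append, word_reverse, word_cons, map_mul, map_mul, map_inv,
      mul_inv_eq_one] at h3
    rw [← h3]
    simp [word]
  have h4 := key (Ω.connectedComponentMk v) (p v) hcomp.symm
  refine ⟨β.1 ⟨(u, v), huv⟩, β.2.1 _, ?_⟩
  change _ = (ψ (word β (p u)))⁻¹ * ψ (word β (p v))
  rw [h4]
  group

end Tree

section Positive

variable {F : Type} [Group F] {S : LabelSet F}

lemma singleton_ne_zero {V : Type} [Finite V] {Ω : SimpleGraph V} (μ : Measure (Labelling S Ω))
    [IsProbabilityMeasure μ] (ε : ℝ≥0) (hε : ε ≠ 0)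
    (hμ : ∀ (e : Ω.Dart) (β β' : Labelling S Ω), AgreeOff e β β' →
      (ε : ℝ≥0∞) * μ {β} ≤ μ {β'}) (β : Labelling S Ω) : μ {β} ≠ 0 := by
  classical
  let _ : Fintype V := Fintype.ofFinite V
  let _ : Fintype (Labelling S Ω) := Fintype.ofFinite _
  have key : ∀ (D : Finset Ω.Dart) (β β' : Labelling S Ω),
      (∀ e, e ∉ D → e.symm ∉ D → β.1 e = β'.1 e) → μ {β} ≠ 0 → μ {β'} ≠ 0 := by
    intro D
    induction D using Finset.induction_on with
    | empty =>
      intro β β' h hβ
      have : β = β' := Subtype.ext (funext fun e => h e (by simp) (by simp))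
      rw [← this]
      exact hβ
    | insert e D _ ih =>
      intro β β' h hβ
      have h1 := hμ e β (upd β e (β'.1 e) (β'.2.1 e)) (agreeOff_upd _ _ _ _)
      refine ih (upd β e (β'.1 e) (β'.2.1 e)) β' ?_ ?_
      · intro e' h2 h3
        by_cases h4 : e' = e
        · rw [h4, upd_self]
        · by_cases h5 : e' = e.symm
          · rw [h5, (upd β e (β'.1 e) (β'.2.1 e)).2.2, β'.2.2, upd_self]
          · rw [← agreeOff_upd β e (β'.1 e) (β'.2.1 e) e' h4 h5]
            apply h
            · simp [h4, h2]
            · intro h6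
              rw [Finset.mem_insert] at h6
              rcases h6 with h6 | h6
              · apply h5
                rw [← h6, SimpleGraph.Dart.symm_symm]
              · exact h3 h6
      · intro h0
        rw [h0] at h1
        have h2 := le_antisymm h1 zero_le
        rw [mul_eq_zero] at h2
        rcases h2 with h2 | h2
        · exact hε (ENNReal.coe_eq_zero.mp h2)
        · exact hβ h2
  obtain ⟨β₀, hβ₀⟩ : ∃ β₀ : Labelling S Ω, μ {β₀} ≠ 0 := by
    by_contra hcon
    push Not at hcon
    have h1 : μ (Set.univ : Set (Labelling S Ω)) = 1 := measure_univ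
    have h2 : ∑ β ∈ (Finset.univ : Finset (Labelling S Ω)), μ {β} = 1 := by
      rw [sum_measure_singleton, Finset.coe_univ, h1]
    rw [Finset.sum_eq_zero (fun β _ => hcon β)] at h2
    exact zero_ne_one h2
  exact key Finset.univ β₀ β (fun e h => absurd (Finset.mem_univ e) h) hβ₀

variable {V : ℕ → Type} [∀ n, Finite (V n)] {Ω : ∀ n, SimpleGraph (V n)}

/-- Every finite collection of labellings is attained by non-negligibly many labellings. -/
theorem frequently_cylinder {l : Filter (Labellings S Ω)} (hl : Typical l) (J : Finset ℕ)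
    (β : Labellings S Ω) : ∃ᶠ α in l, ∀ n ∈ J, α n = β n := by
  classical
  rcases hl with rfl | ⟨μ, hp, hμ, rfl⟩
  · intro h
    have hd : Dense {α : Labellings S Ω | ¬ ∀ n ∈ J, α n = β n} := dense_of_mem_residual h
    have hopen : IsOpen {α : Labellings S Ω | ∀ n ∈ J, α n = β n} := by
      have : {α : Labellings S Ω | ∀ n ∈ J, α n = β n} =
          ⋂ n ∈ J, (fun α : Labellings S Ω => α n) ⁻¹' {β n} := by
        ext α
        simp
      rw [this]
      exact isOpen_biInter_finset fun n _ => (isOpen_discrete _).preimage (continuous_apply n)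
    obtain ⟨α, h1, h2⟩ := hd.inter_open_nonempty _ hopen ⟨β, fun n _ => rfl⟩
    exact h2 h1
  · obtain ⟨ε, hε, hμ⟩ := hμ
    intro h
    rw [ae_iff] at h
    simp only [not_not] at h
    have h3 : Measure.infinitePi μ (Set.pi (J : Set ℕ) (fun n => {β n})) = 0 := by
      refine measure_mono_null ?_ h
      intro α hα n hn
      exact hα n hn
    rw [Measure.infinitePi_pi _ (fun n _ => MeasurableSpace.measurableSet_top)] at h3
    rw [Finset.prod_eq_zero_iff] at h3
    obtain ⟨n, -, hn⟩ := h3
    exact singleton_ne_zero (μ n) ε hε (hμ n) (β n) hn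

omit [∀ n, Finite (V n)] in
lemma agree_relators {J : Finset ℕ} (hJ : ∀ n, n ∉ J → (Ω n).IsAcyclic) {α β : Labellings S Ω}
    (h : ∀ n ∈ J, α n = β n) {G : Type u} [Group G] (ψ : F →* G)
    (hβ : ∀ (n : ℕ) (v : V n) (p : (Ω n).Walk v v), ψ (word (β n) p) = 1) :
    Subgroup.normalClosure (relators α) ≤ ψ.ker := by
  apply Subgroup.normalClosure_le_normal
  rintro r ⟨n, v, p, rfl⟩
  by_cases hn : n ∈ J
  · rw [h n hn]
    exact hβ n v p
  · rw [word_closed (hJ n hn)]
    exact Subgroup.one_mem _

/-- The criterion of super-rigidity when only finitely many graphs have a cycle. -/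
theorem finite_of_superRigidFamily {l : Filter (Labellings S Ω)} (hl : Typical l)
    (hΩ : ¬ InfCyc Ω) {G : Type u} [Group G] (h : SuperRigidFamily G l) (ψ : F →* G)
    (hψ : ∀ n, MapsToCayley (Ω n) (ψ '' S.carrier)) : (Set.range ψ).Finite := by
  classical
  have hfin : {n | ¬ (Ω n).IsAcyclic}.Finite := Set.not_infinite.mp hΩ
  choose β hβ using fun n => exists_labelling (S := S) ψ (hψ n)
  have hJ : ∀ n, n ∉ hfin.toFinset → (Ω n).IsAcyclic := by
    intro n hn
    by_contra hc
    exact hn (by simpa using hc)
  have h1 := h (fun α => if hk : Subgroup.normalClosure (relators α) ≤ ψ.ker then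
    QuotientGroup.lift _ ψ hk else 1)
  obtain ⟨α, h2, h3⟩ := ((frequently_cylinder hl hfin.toFinset β).and_eventually h1).exists
  have hk := agree_relators hJ h2 ψ hβ
  rw [dif_pos hk] at h3
  refine h3.subset ?_
  rintro _ ⟨x, rfl⟩
  exact ⟨QuotientGroup.mk x, rfl⟩

omit [∀ n, Finite (V n)] in
lemma superRigidFamily_of_superRigid {l : Filter (Labellings S Ω)} {G : Type u} [Group G]
    (h : SuperRigid G l) : SuperRigidFamily G l := by
  intro φ
  filter_upwards [h] with α hα
  exact hα _

omit [∀ n, Finite (V n)] in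
/-- The two forms of super-rigidity are equivalent (axiom of choice). -/
theorem superRigidFamily_iff {l : Filter (Labellings S Ω)} (G : Type u) [Group G] :
    SuperRigidFamily G l ↔ SuperRigid G l := by
  classical
  refine ⟨fun h => ?_, superRigidFamily_of_superRigid⟩
  have h1 := h (fun α => if hex : ∃ φ : Gam α →* G, ¬ (Set.range φ).Finite then hex.choose else 1)
  unfold SuperRigid
  filter_upwards [h1] with α hα φ
  by_contra hφ
  have hex : ∃ φ : Gam α →* G, ¬ (Set.range φ).Finite := ⟨φ, hφ⟩
  rw [dif_pos hex] at hα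
  exact hex.choose_spec hα

omit [∀ n, Finite (V n)] in
lemma superRigid_of_hereditary {l : Filter (Labellings S Ω)} {G : Type u} [Group G]
    (h : HereditarySuperRigid G l) : SuperRigid G l := by
  unfold HereditarySuperRigid at h
  unfold SuperRigid
  filter_upwards [h] with α hα φ
  have h1 := hα ⊤ inferInstance (φ.comp (Subgroup.subtype _))
  refine h1.subset ?_
  rintro _ ⟨x, rfl⟩
  exact ⟨⟨x, Subgroup.mem_top _⟩, rfl⟩

omit [∀ n, Finite (V n)] in
/-- If homomorphisms for which all the graphs map to the Cayley graph have finite image, then all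
random groups are super-rigid. -/
theorem superRigid_of_cayley {l : Filter (Labellings S Ω)} {G : Type u} [Group G]
    (h : ∀ ψ : F →* G, (∀ n, MapsToCayley (Ω n) (ψ '' S.carrier)) → (Set.range ψ).Finite) :
    SuperRigid G l := by
  refine Eventually.of_forall fun α φ => ?_
  have h1 := h (φ.comp (QuotientGroup.mk' _)) (fun n => by
    apply mapsToCayley _ (α n)
    intro v p
    have h2 : word (α n) p ∈ Subgroup.normalClosure (relators α) :=
      Subgroup.subset_normalClosure ⟨n, v, p, rfl⟩
    have h3 : (QuotientGroup.mk' (Subgroup.normalClosure (relators α))) (word (α n) p) = 1 :=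
      (QuotientGroup.eq_one_iff _).mpr h2
    change φ ((QuotientGroup.mk' (Subgroup.normalClosure (relators α))) (word (α n) p)) = 1
    rw [h3, map_one])
  refine h1.subset ?_
  rintro _ ⟨x, rfl⟩
  obtain ⟨g, rfl⟩ := QuotientGroup.mk'_surjective _ x
  exact ⟨g, rfl⟩

end Positive

end Pool.Agent.H16M
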