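import Pool.Agent.H16M.Defs

/-!
# Random monster groups: the key lemma for typical labellings
-/

set_option autoImplicit false

open MeasureTheory Filter

open scoped ENNReal NNReal

universe u

namespace Pool.Agent.H16M

variable {F : Type} [Group F] {S : LabelSet F}

/-- A set of labellings is thin if every labelling in it leaves it after a change of the label of
the edge `e`. -/
def Thin {V : Type} {Ω : SimpleGraph V} (B : Set (Labelling S Ω)) : Prop :=
  ∃ e : Ω.Dart, ∀ β ∈ B, ∃ β' ∉ B, AgreeOff e β β'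

lemma AgreeOff.symm {V : Type} {Ω : SimpleGraph V} {e : Ω.Dart} {β β' : Labelling S Ω}
    (h : AgreeOff e β β') : AgreeOff e β' β := fun e' h1 h2 => (h e' h1 h2).symm

lemma AgreeOff.refl {V : Type} {Ω : SimpleGraph V} (e : Ω.Dart) (β : Labelling S Ω) :
    AgreeOff e β β := fun _ _ _ => rfl

lemma measure_thin_le {V : Type} [Finite V] {Ω : SimpleGraph V} (μ : Measure (Labelling S Ω))
    [IsProbabilityMeasure μ] (ε : ℝ≥0)
    (hμ : ∀ (e : Ω.Dart) (β β' : Labelling S Ω), AgreeOff e β β' →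
      (ε : ℝ≥0∞) * μ {β} ≤ μ {β'}) (B : Set (Labelling S Ω)) (hB : Thin B) :
    ((ε : ℝ≥0∞) + S.carrier.ncard) * μ B ≤ S.carrier.ncard := by
  classical
  obtain ⟨e, he⟩ := hB
  choose! f hf1 hf2 using he
  let _ : Fintype (Labelling S Ω) := Fintype.ofFinite _
  have hSfin : Finite S.carrier := S.finite
  let _ : Fintype S.carrier := Fintype.ofFinite _
  have hsum : ∀ C : Set (Labelling S Ω), μ C = ∑ β ∈ C.toFinset, μ {β} := by
    intro C
    rw [sum_measure_singleton, Set.coe_toFinset]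
  let g : Labelling S Ω → Labelling S Ω × S.carrier := fun β => (f β, ⟨β.1 e, β.2.1 e⟩)
  have hinj : Set.InjOn g B := by
    intro α hα β hβ hab
    have h1 : f α = f β := congrArg Prod.fst hab
    have h2 : α.1 e = β.1 e := congrArg Subtype.val (congrArg Prod.snd hab)
    apply Subtype.ext
    funext e'
    by_cases h3 : e' = e
    · rw [h3, h2]
    · by_cases h4 : e' = e.symm
      · rw [h4, α.2.2, β.2.2, h2]
      · rw [hf2 α hα e' h3 h4, hf2 β hβ e' h3 h4, h1]
  have h1 : (ε : ℝ≥0∞) * μ B ≤ S.carrier.ncard * μ Bᶜ := by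
    calc (ε : ℝ≥0∞) * μ B = ∑ β ∈ B.toFinset, (ε : ℝ≥0∞) * μ {β} := by
          rw [hsum B, Finset.mul_sum]
      _ ≤ ∑ β ∈ B.toFinset, μ {(g β).1} := by
          apply Finset.sum_le_sum
          intro β hβ
          exact hμ e β (f β) (hf2 β (by simpa using hβ))
      _ = ∑ p ∈ B.toFinset.image g, μ {p.1} := by
          rw [Finset.sum_image]
          intro a ha b hb hab
          exact hinj (by simpa using ha) (by simpa using hb) hab
      _ ≤ ∑ p ∈ Bᶜ.toFinset ×ˢ (Finset.univ : Finset S.carrier), μ {p.1} := by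
          apply Finset.sum_le_sum_of_subset
          intro p hp
          rw [Finset.mem_image] at hp
          obtain ⟨β, hβ, rfl⟩ := hp
          rw [Finset.mem_product]
          refine ⟨?_, Finset.mem_univ _⟩
          rw [Set.mem_toFinset]
          exact hf1 β (by simpa using hβ)
      _ = S.carrier.ncard * μ Bᶜ := by
          rw [Finset.sum_product, hsum Bᶜ, Finset.mul_sum]
          refine Finset.sum_congr (by ext; simp) ?_
          intro x _
          simp only [Finset.sum_const, nsmul_eq_mul]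
          congr 2
          rw [Finset.card_univ, ← Nat.card_eq_fintype_card]
          rfl
  have h2 : μ B + μ Bᶜ = 1 := by
    rw [measure_add_measure_compl (by trivial), measure_univ]
  calc ((ε : ℝ≥0∞) + S.carrier.ncard) * μ B = (ε : ℝ≥0∞) * μ B + S.carrier.ncard * μ B := by
        rw [add_mul]
    _ ≤ S.carrier.ncard * μ Bᶜ + S.carrier.ncard * μ B := by gcongr
    _ = S.carrier.ncard * (μ B + μ Bᶜ) := by rw [mul_add, add_comm]
    _ = S.carrier.ncard := by rw [h2, mul_one]

lemma measure_thin_lt {V : Type} [Finite V] {Ω : SimpleGraph V} (μ : Measure (Labelling S Ω))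
    [IsProbabilityMeasure μ] (ε : ℝ≥0) (hε : ε ≠ 0)
    (hμ : ∀ (e : Ω.Dart) (β β' : Labelling S Ω), AgreeOff e β β' →
      (ε : ℝ≥0∞) * μ {β} ≤ μ {β'}) (B : Set (Labelling S Ω)) (hB : Thin B) :
    μ B ≤ (S.carrier.ncard : ℝ≥0∞) / ((ε : ℝ≥0∞) + S.carrier.ncard) := by
  have h := measure_thin_le μ ε hμ B hB
  rw [ENNReal.le_div_iff_mul_le (Or.inl (by
      simp only [ne_eq, add_eq_zero, ENNReal.coe_eq_zero, hε, false_and, not_false_eq_true]))
      (Or.inl (ENNReal.add_ne_top.mpr ⟨ENNReal.coe_ne_top, ENNReal.natCast_ne_top _⟩)), mul_comm]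
  exact h

lemma ratio_lt_one (ε : ℝ≥0) (hε : ε ≠ 0) (s : ℕ) :
    (s : ℝ≥0∞) / ((ε : ℝ≥0∞) + s) < 1 := by
  have h1 : ((ε : ℝ≥0∞) + s) ≠ 0 := by
    simp only [ne_eq, add_eq_zero, ENNReal.coe_eq_zero, hε, false_and, not_false_eq_true]
  have h2 : ((ε : ℝ≥0∞) + s) ≠ ⊤ :=
    ENNReal.add_ne_top.mpr ⟨ENNReal.coe_ne_top, ENNReal.natCast_ne_top _⟩
  rw [ENNReal.div_lt_iff (Or.inl h1) (Or.inl h2), one_mul]
  calc (s : ℝ≥0∞) = 0 + s := (zero_add _).symm
    _ < (ε : ℝ≥0∞) + s := by
        apply ENNReal.add_lt_add_right (ENNReal.natCast_ne_top _)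
        exact ENNReal.coe_pos.mpr (pos_iff_ne_zero.mpr hε)

variable {V : ℕ → Type} {Ω : ∀ n, SimpleGraph (V n)}

lemma null_of_thin [∀ n, Finite (V n)] (μ : ∀ n, Measure (Labelling S (Ω n)))
    [∀ n, IsProbabilityMeasure (μ n)] (hμ : Flexible μ) (I : Set ℕ) (hI : I.Infinite)
    (B : ∀ n, Set (Labelling S (Ω n))) (hB : ∀ n ∈ I, Thin (B n)) :
    Measure.infinitePi μ {α | ∀ n, α n ∈ B n} = 0 := by
  obtain ⟨ε, hε, hμ⟩ := hμ
  set q : ℝ≥0∞ := (S.carrier.ncard : ℝ≥0∞) / ((ε : ℝ≥0∞) + S.carrier.ncard) with hq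
  have hle : ∀ m : ℕ, Measure.infinitePi μ {α | ∀ n, α n ∈ B n} ≤ q ^ m := by
    intro m
    obtain ⟨J, hJ, hJm⟩ := hI.exists_subset_card_eq m
    have hsub : {α : Labellings S Ω | ∀ n, α n ∈ B n} ⊆ Set.pi (J : Set ℕ) (fun n => B n) := by
      intro α hα n _
      exact hα n
    refine (measure_mono hsub).trans ?_
    rw [Measure.infinitePi_pi _ (fun n _ => MeasurableSpace.measurableSet_top)]
    calc ∏ n ∈ J, μ n (B n) ≤ ∏ _n ∈ J, q := by
          apply Finset.prod_le_prod'
          intro n hn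
          exact measure_thin_lt (μ n) ε hε (hμ n) (B n) (hB n (hJ hn))
      _ = q ^ m := by rw [Finset.prod_const, hJm]
  have ht := ENNReal.tendsto_pow_atTop_nhds_zero_of_lt_one (ratio_lt_one ε hε S.carrier.ncard)
  exact le_antisymm (ge_of_tendsto' ht hle) zero_le

lemma residual_of_thin (I : Set ℕ) (hI : I.Infinite)
    (B : ∀ n, Set (Labelling S (Ω n))) (hB : ∀ n ∈ I, Thin (B n)) :
    ∀ᶠ α in residual (Labellings S Ω), ¬ ∀ n, α n ∈ B n := by
  classical
  have hopen : IsOpen {α : Labellings S Ω | ¬ ∀ n, α n ∈ B n} := by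
    have : {α : Labellings S Ω | ¬ ∀ n, α n ∈ B n} = ⋃ n, (fun α : Labellings S Ω => α n) ⁻¹' (B n)ᶜ := by
      ext α
      simp
    rw [this]
    exact isOpen_iUnion fun n => (isOpen_discrete _).preimage (continuous_apply n)
  have hdense : Dense {α : Labellings S Ω | ¬ ∀ n, α n ∈ B n} := by
    rw [dense_iff_inter_open]
    intro U hU hne
    obtain ⟨α, hα⟩ := hne
    rw [isOpen_pi_iff] at hU
    obtain ⟨J, u, hu, hsub⟩ := hU α hα
    obtain ⟨n, hnI, hnJ⟩ := hI.exists_notMem_finset J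
    obtain ⟨e, he⟩ := hB n hnI
    by_cases hαn : α n ∈ B n
    · obtain ⟨β', hβ', -⟩ := he _ hαn
      refine ⟨Function.update α n β', hsub ?_, ?_⟩
      · intro i hi
        have hin : i ≠ n := fun h => hnJ (h ▸ hi)
        rw [Function.update_of_ne hin]
        exact (hu i hi).2
      · intro h
        have := h n
        rw [Function.update_self] at this
        exact hβ' this
    · exact ⟨α, hα, fun h => hαn (h n)⟩
  exact residual_of_dense_open hopen hdense

theorem typical_avoid [∀ n, Finite (V n)] {l : Filter (Labellings S Ω)} (hl : Typical l)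
    (I : Set ℕ) (hI : I.Infinite) (B : ∀ n, Set (Labelling S (Ω n)))
    (hB : ∀ n ∈ I, Thin (B n)) : ∀ᶠ α in l, ¬ ∀ n, α n ∈ B n := by
  rcases hl with rfl | ⟨μ, hp, hμ, rfl⟩
  · exact residual_of_thin I hI B hB
  · rw [ae_iff]
    simp only [not_not]
    exact null_of_thin μ hμ I hI B hB

theorem typical_countableInter {l : Filter (Labellings S Ω)} (hl : Typical l) :
    CountableInterFilter l := by
  rcases hl with rfl | ⟨μ, hp, hμ, rfl⟩
  · infer_instance
  · infer_instance

open Classical in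
/-- Change the label of the oriented edge `e` to `g`. -/
noncomputable def upd {V : Type} {Ω : SimpleGraph V} (α : Labelling S Ω) (e : Ω.Dart) (g : F)
    (hg : g ∈ S.carrier) : Labelling S Ω :=
  ⟨fun e' => if e' = e then g else if e' = e.symm then g⁻¹ else α.1 e', by
    constructor
    · intro e'
      dsimp only
      split_ifs
      · exact hg
      · exact S.inv_mem g hg
      · exact α.2.1 e'
    · intro e'
      have hne : e.symm ≠ e := e.symm_ne
      have hne' : e ≠ e.symm := fun h => hne h.symm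
      dsimp only
      by_cases h1 : e' = e
      · subst h1
        simp [hne]
      · by_cases h2 : e' = e.symm
        · subst h2
          simp [hne]
        · have h3 : e'.symm ≠ e := fun h => h2 (by rw [← h, SimpleGraph.Dart.symm_symm])
          have h4 : e'.symm ≠ e.symm := fun h => h1 (by
            have := congrArg SimpleGraph.Dart.symm h
            simpa using this)
          rw [if_neg h3, if_neg h4, if_neg h1, if_neg h2]
          exact α.2.2 e'⟩

lemma upd_self {V : Type} {Ω : SimpleGraph V} (α : Labelling S Ω) (e : Ω.Dart) (g : F)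
    (hg : g ∈ S.carrier) : (upd α e g hg).1 e = g := by
  classical
  simp [upd]

lemma upd_of_ne {V : Type} {Ω : SimpleGraph V} (α : Labelling S Ω) (e : Ω.Dart) (g : F)
    (hg : g ∈ S.carrier) (e' : Ω.Dart) (h : e'.edge ≠ e.edge) :
    (upd α e g hg).1 e' = α.1 e' := by
  classical
  have h1 : e' ≠ e := fun h' => h (by rw [h'])
  have h2 : e' ≠ e.symm := fun h' => h (by rw [h', SimpleGraph.Dart.edge_symm])
  simp [upd, h1, h2]

lemma agreeOff_upd {V : Type} {Ω : SimpleGraph V} (α : Labelling S Ω) (e : Ω.Dart) (g : F)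
    (hg : g ∈ S.carrier) : AgreeOff e α (upd α e g hg) := by
  classical
  intro e' h1 h2
  simp [upd, h1, h2]

lemma word_upd {V : Type} {Ω : SimpleGraph V} (α : Labelling S Ω) (e : Ω.Dart) (g : F)
    (hg : g ∈ S.carrier) {u v : V} (p : Ω.Walk u v) (h : e.edge ∉ p.edges) :
    word (upd α e g hg) p = word α p := by
  unfold word
  congr 1
  apply List.map_congr_left
  intro d hd
  apply upd_of_ne
  intro h'
  apply h
  rw [← h']
  exact List.mem_map_of_mem hd

/-- The set of labellings all of whose closed words lie in `H` and in the kernel of `ψ`. -/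
def Bset {V : Type} (Ω : SimpleGraph V) (H : Subgroup F) {G : Type u} [Group G] (ψ : H →* G) :
    Set (Labelling S Ω) :=
  {α | ∀ (v : V) (p : Ω.Walk v v), ∃ h : word α p ∈ H, ψ ⟨word α p, h⟩ = 1}

/-- If `Ω` has a cycle and `ψ` does not kill all the quotients `s' s⁻¹` of labels, the set of
labellings with all closed words in the kernel of `ψ` is thin. -/
lemma thin_Bset {V : Type} (Ω : SimpleGraph V) (hΩ : ¬ Ω.IsAcyclic)
    (H : Subgroup F) {G : Type u} [Group G] (ψ : H →* G)
    (hHS : ∀ s ∈ S.carrier, ∀ s' ∈ S.carrier, s' * s⁻¹ ∈ H)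
    (s₀ s₁ : F) (h₀ : s₀ ∈ S.carrier) (h₁ : s₁ ∈ S.carrier)
    (hψ : ψ ⟨s₁ * s₀⁻¹, hHS _ h₀ _ h₁⟩ ≠ 1) :
    Thin (Bset (S := S) Ω H ψ) := by
  classical
  unfold SimpleGraph.IsAcyclic at hΩ
  push Not at hΩ
  obtain ⟨v, c, hc⟩ := hΩ
  cases c with
  | nil => exact absurd hc (by simp)
  | @cons _ w _ hadj p =>
    rw [SimpleGraph.Walk.cons_isCycle_iff] at hc
    obtain ⟨-, hedge⟩ := hc
    set e : Ω.Dart := ⟨(v, w), hadj⟩ with he
    have hedge' : e.edge ∉ p.edges := hedge
    -- for every label choose a different one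
    have hchoose : ∀ α : Labelling S Ω, ∃ g ∈ S.carrier, ∀ h : g * (α.1 e)⁻¹ ∈ H,
        ψ ⟨g * (α.1 e)⁻¹, h⟩ ≠ 1 := by
      intro α
      by_contra hcon
      push Not at hcon
      obtain ⟨k0, e0⟩ := hcon s₀ h₀
      obtain ⟨k1, e1⟩ := hcon s₁ h₁
      apply hψ
      have : (⟨s₁ * s₀⁻¹, hHS _ h₀ _ h₁⟩ : H)
          = ⟨s₁ * (α.1 e)⁻¹, k1⟩ * (⟨s₀ * (α.1 e)⁻¹, k0⟩ : H)⁻¹ := by
        apply Subtype.ext
        simp [mul_assoc]
      rw [this, map_mul, map_inv, e0, e1]
      simp
    choose g hgS hg using hchoose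
    refine ⟨e, fun α hα => ⟨upd α e (g α) (hgS α), ?_, agreeOff_upd _ _ _ _⟩⟩
    intro hcon
    obtain ⟨m1, e1⟩ := hα v (SimpleGraph.Walk.cons hadj p)
    obtain ⟨m2, e2⟩ := hcon v (SimpleGraph.Walk.cons hadj p)
    have w1 : word α (SimpleGraph.Walk.cons hadj p) = α.1 e * word α p := by
      simp [word, he]
    have w2 : word (upd α e (g α) (hgS α)) (SimpleGraph.Walk.cons hadj p)
        = g α * word α p := by
      have : word (upd α e (g α) (hgS α)) (SimpleGraph.Walk.cons hadj p)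
        = (upd α e (g α) (hgS α)).1 e * word (upd α e (g α) (hgS α)) p := by
        simp [word, he]
      rw [this, upd_self, word_upd _ _ _ _ _ hedge']
    have m3 : g α * (α.1 e)⁻¹ ∈ H := hHS _ (α.2.1 e) _ (hgS α)
    apply hg α m3
    have m1' : α.1 e * word α p ∈ H := w1 ▸ m1
    have m2' : g α * word α p ∈ H := by
      have := m2
      change word (upd α e (g α) (hgS α)) (SimpleGraph.Walk.cons hadj p) ∈ H at this
      rwa [w2] at this
    have e1' : ψ ⟨α.1 e * word α p, m1'⟩ = 1 := by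
      have hh : (⟨α.1 e * word α p, m1'⟩ : H) = ⟨_, m1⟩ := Subtype.ext w1.symm
      rw [hh]; exact e1
    have e2' : ψ ⟨g α * word α p, m2'⟩ = 1 := by
      have hh : (⟨g α * word α p, m2'⟩ : H) = ⟨_, m2⟩ := Subtype.ext w2.symm
      rw [hh]; exact e2
    have : (⟨g α * (α.1 e)⁻¹, m3⟩ : H)
        = ⟨g α * word α p, m2'⟩ * (⟨α.1 e * word α p, m1'⟩ : H)⁻¹ := by
      apply Subtype.ext
      simp [mul_assoc]
    rw [this, map_mul, map_inv, e1', e2']
    simp

/-- For typical labellings, every homomorphism from the fixed subgroup `H` to the countable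
group `G` that kills all closed words kills all quotients of labels. -/
theorem typical_hom [∀ n, Finite (V n)] {l : Filter (Labellings S Ω)} (hl : Typical l)
    (hΩ : InfCyc Ω) (H : Subgroup F) (G : Type u) [Group G] [Countable (H →* G)]
    (hHS : ∀ s ∈ S.carrier, ∀ s' ∈ S.carrier, s' * s⁻¹ ∈ H) :
    ∀ᶠ α in l, ∀ ψ : H →* G, (∀ r ∈ relators α, ∃ h : r ∈ H, ψ ⟨r, h⟩ = 1) →
      ∀ s s' : F, ∀ (hs : s ∈ S.carrier) (hs' : s' ∈ S.carrier),
        ψ ⟨s' * s⁻¹, hHS s hs s' hs'⟩ = 1 := by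
  have := typical_countableInter hl
  rw [eventually_countable_forall]
  intro ψ
  by_cases hψ : ∀ s s' : F, ∀ (hs : s ∈ S.carrier) (hs' : s' ∈ S.carrier),
      ψ ⟨s' * s⁻¹, hHS s hs s' hs'⟩ = 1
  · exact Eventually.of_forall fun α _ => hψ
  · push Not at hψ
    obtain ⟨s₀, s₁, h₀, h₁, hne⟩ := hψ
    have h := typical_avoid hl _ hΩ (fun n => Bset (S := S) (Ω n) H ψ)
      (fun n hn => thin_Bset (Ω n) hn H ψ hHS s₀ s₁ h₀ h₁ hne)
    filter_upwards [h] with α hα hr
    exact absurd (fun n v p => hr _ ⟨n, v, p, rfl⟩) hα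

end Pool.Agent.H16M
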