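import Pool.Agent.H16M.Defs

set_option autoImplicit false

namespace Pool.Agent.H16M

variable {k : ℕ}

lemma T_finite (k : ℕ) : (T k).Finite := by
  have : T k ⊆ Set.range (fun i : Fin k => FreeGroup.of i)
      ∪ Set.range (fun i : Fin k => (FreeGroup.of i)⁻¹) := by
    rintro g ⟨i, h | h⟩
    · left; exact ⟨i, h.symm⟩
    · right; exact ⟨i, h.symm⟩
  exact ((Set.finite_range _).union (Set.finite_range _)).subset this

lemma T_inv {g : FreeGroup (Fin k)} (h : g ∈ T k) : g⁻¹ ∈ T k := by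
  obtain ⟨i, h | h⟩ := h
  · exact ⟨i, Or.inr (by rw [h])⟩
  · exact ⟨i, Or.inl (by rw [h, inv_inv])⟩

lemma TpowSet_succ (j : ℕ) : TpowSet k (j + 1) ⊆ Set.image2 (· * ·) (T k) (TpowSet k j) := by
  rintro g ⟨l, hl, hT, hg⟩
  cases l with
  | nil => simp at hl
  | cons t l =>
    refine ⟨t, hT t (by simp), l.prod, ⟨l, by simpa using hl, fun s hs => hT s (by simp [hs]), rfl⟩,
      ?_⟩
    simpa using hg

lemma TpowSet_finite (j : ℕ) : (TpowSet k j).Finite := by
  induction j with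
  | zero =>
    refine (Set.finite_singleton (1 : FreeGroup (Fin k))).subset ?_
    rintro g ⟨l, hl, -, hg⟩
    rw [List.length_eq_zero_iff] at hl
    subst hl
    simpa using hg.symm
  | succ j ih => exact (Set.Finite.image2 _ (T_finite k) ih).subset (TpowSet_succ j)

lemma TpowSet_inv {j : ℕ} {g : FreeGroup (Fin k)} (h : g ∈ TpowSet k j) :
    g⁻¹ ∈ TpowSet k j := by
  obtain ⟨l, hl, hT, hg⟩ := h
  refine ⟨(l.map (·⁻¹)).reverse, by simpa using hl, ?_, ?_⟩
  · intro t ht
    rw [List.mem_reverse, List.mem_map] at ht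
    obtain ⟨s, hs, rfl⟩ := ht
    exact T_inv (hT s hs)
  · rw [← hg, List.prod_inv_reverse]

lemma mem_TpowSet {j : ℕ} {a r : FreeGroup (Fin k)} (ha : a ∈ T k) (hr : r ∈ T k) :
    a * r ^ j ∈ TpowSet k (j + 1) := by
  refine ⟨a :: List.replicate j r, by simp, ?_, by simp⟩
  intro t ht
  rw [List.mem_cons, List.mem_replicate] at ht
  rcases ht with rfl | ⟨-, rfl⟩
  · exact ha
  · exact hr

/-- The label set `T^j` in the free group of rank `k ≥ 2`. -/
def Tpow (k j : ℕ) (hk : 2 ≤ k) : LabelSet (FreeGroup (Fin k)) where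
  carrier := TpowSet k j
  finite := TpowSet_finite j
  nonempty := by
    have i : Fin k := ⟨0, by omega⟩
    cases j with
    | zero => exact ⟨1, [], by simp, by simp, by simp⟩
    | succ j => exact ⟨_, mem_TpowSet (a := FreeGroup.of i) (r := FreeGroup.of i)
        ⟨i, Or.inl rfl⟩ ⟨i, Or.inl rfl⟩⟩
  inv_mem := fun _ h => TpowSet_inv h

/-- The element of the free group given by one letter. -/
def lt (x : Fin k × Bool) : FreeGroup (Fin k) := FreeGroup.mk [x]

lemma exists_lt {a : FreeGroup (Fin k)} (h : a ∈ T k) : ∃ x : Fin k × Bool, a = lt x := by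
  obtain ⟨i, h | h⟩ := h
  · exact ⟨(i, true), h⟩
  · refine ⟨(i, false), ?_⟩
    rw [h]
    rfl

/-- Property used of a label set: all quotients `a' a⁻¹` of elements of `T` are quotients of
labels. -/
structure Good (k : ℕ) (S : LabelSet (FreeGroup (Fin k))) : Prop where
  quot : ∀ a ∈ T k, ∀ a' ∈ T k, ∃ s ∈ S.carrier, ∃ s' ∈ S.carrier, s' * s⁻¹ = a' * a⁻¹

lemma good_Tpow {j : ℕ} (hk : 2 ≤ k) (hj : 1 ≤ j) : Good k (Tpow k j hk) := by
  obtain ⟨j, rfl⟩ : ∃ i, j = i + 1 := ⟨j - 1, by omega⟩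
  refine ⟨fun a ha a' ha' => ?_⟩
  have i : Fin k := ⟨0, by omega⟩
  have hr : FreeGroup.of i ∈ T k := ⟨i, Or.inl rfl⟩
  exact ⟨a * FreeGroup.of i ^ j, mem_TpowSet ha hr, a' * FreeGroup.of i ^ j, mem_TpowSet ha' hr,
    by group⟩

/-- The parity homomorphism of the free group. -/
def par (k : ℕ) : FreeGroup (Fin k) →* ℤˣ := FreeGroup.lift fun _ => (-1 : ℤˣ)

lemma par_T {a : FreeGroup (Fin k)} (h : a ∈ T k) : par k a = -1 := by
  obtain ⟨i, h | h⟩ := h
  · rw [h, par, FreeGroup.lift_apply_of]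
  · rw [h, map_inv, par, FreeGroup.lift_apply_of]
    decide

/-- The subgroup of words of even length. -/
def Ev (k : ℕ) : Subgroup (FreeGroup (Fin k)) := (par k).ker

lemma par_Tpow {j : ℕ} {g : FreeGroup (Fin k)} (h : g ∈ TpowSet k j) : par k g = (-1) ^ j := by
  obtain ⟨l, hl, hT, hg⟩ := h
  rw [← hg, map_list_prod, ← hl]
  clear hl hg
  induction l with
  | nil => simp
  | cons t l ih =>
    rw [List.map_cons, List.prod_cons, ih (fun s hs => hT s (by simp [hs])), par_T (hT t (by simp)),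
      List.length_cons, pow_succ']

lemma par_mk (l : List (Fin k × Bool)) : par k (FreeGroup.mk l) = (-1) ^ l.length := by
  induction l with
  | nil => rfl
  | cons x l ih =>
    have : FreeGroup.mk (x :: l) = lt x * FreeGroup.mk l := by
      rw [lt, FreeGroup.mul_mk]; rfl
    rw [this, map_mul, ih, List.length_cons, pow_succ']
    congr 1
    apply par_T
    obtain ⟨i, b⟩ := x
    cases b
    · exact ⟨i, Or.inr rfl⟩
    · exact ⟨i, Or.inl rfl⟩

lemma quot_mem_Ev_Tpow {j : ℕ} (hk : 2 ≤ k) :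
    ∀ s ∈ (Tpow k j hk).carrier, ∀ s' ∈ (Tpow k j hk).carrier, s' * s⁻¹ ∈ Ev k := by
  intro s hs s' hs'
  rw [Ev, MonoidHom.mem_ker, map_mul, map_inv, par_Tpow hs, par_Tpow hs']
  simp

/-- A subgroup that contains all quotients of generators contains all words of even length. -/
lemma Ev_le_of_quot (hk : 2 ≤ k) (M : Subgroup (FreeGroup (Fin k)))
    (hM : ∀ a ∈ T k, ∀ a' ∈ T k, a' * a⁻¹ ∈ M) : Ev k ≤ M := by
  have i : Fin k := ⟨0, by omega⟩
  set M' : Subgroup (FreeGroup (Fin k)) := M ⊓ Ev k with hM'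
  have hM1 : ∀ a ∈ T k, ∀ a' ∈ T k, a' * a⁻¹ ∈ M' := by
    intro a ha a' ha'
    refine Subgroup.mem_inf.mpr ⟨hM a ha a' ha', ?_⟩
    rw [Ev, MonoidHom.mem_ker, map_mul, map_inv, par_T ha, par_T ha']
    simp
  set a₀ := FreeGroup.of i with ha₀
  have hT0 : a₀ ∈ T k := ⟨i, Or.inl rfl⟩
  have key : ∀ w : List (Fin k × Bool), FreeGroup.mk w ∈ M' ∨ a₀ * FreeGroup.mk w ∈ M' := by
    intro w
    induction w with
    | nil => left; exact M'.one_mem
    | cons x l ih =>
      have hx : FreeGroup.mk (x :: l) = lt x * FreeGroup.mk l := by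
        rw [lt, FreeGroup.mul_mk]; rfl
      have hxT : lt x ∈ T k := by
        obtain ⟨i, b⟩ := x
        cases b
        · exact ⟨i, Or.inr rfl⟩
        · exact ⟨i, Or.inl rfl⟩
      rcases ih with h | h
      · right
        rw [hx, ← mul_assoc]
        apply M'.mul_mem _ h
        have := hM1 _ (T_inv hxT) _ hT0
        simpa using this
      · left
        have : FreeGroup.mk (x :: l) = (lt x * a₀⁻¹) * (a₀ * FreeGroup.mk l) := by
          rw [hx]; group
        rw [this]
        exact M'.mul_mem (hM1 _ hT0 _ hxT) h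
  intro g hg
  have := key g.toWord
  rw [FreeGroup.mk_toWord] at this
  rcases this with h | h
  · exact h.1
  · exfalso
    have h2 : a₀ * g ∈ Ev k := h.2
    have h3 : a₀ ∈ Ev k := by
      have := (Ev k).mul_mem h2 ((Ev k).inv_mem hg)
      simpa using this
    rw [Ev, MonoidHom.mem_ker, par_T hT0] at h3
    exact absurd h3 (by decide)

end Pool.Agent.H16M
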