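import Pool.Agent.H16M.Core
import Pool.Agent.H16M.Labels

/-!
# Random monster groups: homomorphisms from subgroups of finite index kill all even words
-/

set_option autoImplicit false

open MeasureTheory Filter

universe u v

namespace Pool.Agent.H16M

/-- Homomorphisms from a finitely generated group to a countable group are countably many. -/
lemma countable_hom (H : Type) [Group H] [Group.FG H] (G : Type u) [Group G] [Countable G] :
    Countable (H →* G) := by
  classical
  obtain ⟨S, hS⟩ := (Group.fg_def (G := H)).mp inferInstance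
  let f : (H →* G) → (S → G) := fun φ s => φ s
  refine Function.Injective.countable (f := f) ?_
  intro φ ψ h
  apply MonoidHom.eq_of_eqOn_dense hS
  intro s hs
  exact congrFun h ⟨s, hs⟩

variable {k : ℕ} {S : LabelSet (FreeGroup (Fin k))}
  {V : ℕ → Type} {Ω : ∀ n, SimpleGraph (V n)}

instance : Finite ℤˣ := inferInstance

instance (k : ℕ) : (Ev k).FiniteIndex := by
  unfold Ev
  infer_instance

instance (k : ℕ) : Group.FG (Ev k) := Subgroup.fg_of_index_ne_zero (Ev k)

/-- The projection of the free group onto `Γ_α`. -/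
abbrev cl (α : Labellings S Ω) : FreeGroup (Fin k) →* Gam α :=
  QuotientGroup.mk' (Subgroup.normalClosure (relators α))

/-- The subgroup `Γ_α⁺` of the elements of `Γ_α` represented by words of even length. -/
def evPart (α : Labellings S Ω) : Subgroup (Gam α) := (Ev k).map (cl α)

/-- All homomorphisms from subgroups of finite index of `Γ_α` to `G` are trivial on the subgroup
`Γ_α⁺`. -/
def Kills (α : Labellings S Ω) (G : Type u) [Group G] : Prop :=
  ∀ Γ' : Subgroup (Gam α), Γ'.FiniteIndex → ∀ φ : Γ' →* G,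
    evPart α ≤ Γ' ∧ ∀ x : Γ', (x : Gam α) ∈ evPart α → φ x = 1

lemma kills_of_words {α : Labellings S Ω} {G : Type u} [Group G]
    (h : ∀ Γ' : Subgroup (Gam α), Γ'.FiniteIndex → ∀ φ : Γ' →* G, ∀ g : FreeGroup (Fin k),
      g ∈ Ev k → ∃ h : cl α g ∈ Γ', φ ⟨cl α g, h⟩ = 1) : Kills α G := by
  intro Γ' hΓ' φ
  constructor
  · rintro x ⟨g, hg, rfl⟩
    exact (h Γ' hΓ' φ g hg).1
  · rintro ⟨x, hx⟩ hx'
    obtain ⟨g, hg, rfl⟩ := hx'
    exact (h Γ' hΓ' φ g hg).2

theorem typical_kills [∀ n, Finite (V n)] {l : Filter (Labellings S Ω)} (hl : Typical l)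
    (hk : 2 ≤ k) (hΩ : InfCyc Ω) (hgood : Good k S)
    (hEv : ∀ s ∈ S.carrier, ∀ s' ∈ S.carrier, s' * s⁻¹ ∈ Ev k)
    (G : Type u) [Group G] [Countable G] : ∀ᶠ α in l, Kills α G := by
  classical
  have := typical_countableInter hl
  have hTop : ∀ s ∈ S.carrier, ∀ s' ∈ S.carrier,
      s' * s⁻¹ ∈ (⊤ : Subgroup (FreeGroup (Fin k))) := fun _ _ _ _ => Subgroup.mem_top _
  have hfgTop : Group.FG (⊤ : Subgroup (FreeGroup (Fin k))) := by
    rw [Group.fg_iff_subgroup_fg]
    exact Group.FG.out
  have c1 : ∀ m : ℕ, Countable ((⊤ : Subgroup (FreeGroup (Fin k))) →* Equiv.Perm (Fin m)) :=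
    fun m => countable_hom _ _
  have c2 : Countable ((⊤ : Subgroup (FreeGroup (Fin k))) →* G) := countable_hom _ _
  have c3 : Countable (Ev k →* G) := countable_hom _ _
  have h1 : ∀ᶠ α in l, ∀ m : ℕ,
      ∀ ψ : (⊤ : Subgroup (FreeGroup (Fin k))) →* Equiv.Perm (Fin m),
      (∀ r ∈ relators α, ∃ h : r ∈ (⊤ : Subgroup (FreeGroup (Fin k))), ψ ⟨r, h⟩ = 1) →
      ∀ s s' : FreeGroup (Fin k), ∀ (hs : s ∈ S.carrier) (hs' : s' ∈ S.carrier),
        ψ ⟨s' * s⁻¹, hTop s hs s' hs'⟩ = 1 := by
    rw [eventually_countable_forall]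
    intro m
    exact typical_hom hl hΩ _ _ hTop
  have h2 := typical_hom (S := S) hl hΩ ⊤ G hTop
  have h3 := typical_hom (S := S) hl hΩ (Ev k) G hEv
  filter_upwards [h1, h2, h3] with α a1 a2 a3
  apply kills_of_words
  intro Γ' hΓ' φ
  set N : Subgroup (FreeGroup (Fin k)) := Subgroup.normalClosure (relators α) with hN
  set H : Subgroup (FreeGroup (Fin k)) := Γ'.comap (QuotientGroup.mk' N) with hH
  have hNH : N ≤ H := by
    intro n hn
    rw [hH, Subgroup.mem_comap]
    have : (QuotientGroup.mk' N) n = 1 := by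
      rw [← MonoidHom.mem_ker, QuotientGroup.ker_mk']
      exact hn
    rw [this]
    exact Γ'.one_mem
  have hrelN : ∀ r ∈ relators α, r ∈ N := fun r hr => Subgroup.subset_normalClosure hr
  have hHfin : H.FiniteIndex := by
    have hs : Function.Surjective (QuotientGroup.mk' N) := QuotientGroup.mk'_surjective N
    refine ⟨?_⟩
    rw [hH, Subgroup.index_comap_of_surjective _ hs]
    exact hΓ'.index_ne_zero
  -- the action on the cosets of `H`
  have hEH : Ev k ≤ H := by
    apply Ev_le_of_quot hk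
    intro a ha a' ha'
    have : Finite (FreeGroup (Fin k) ⧸ H) := Subgroup.finite_quotient_of_finiteIndex
    obtain ⟨m, ⟨e⟩⟩ := Finite.exists_equiv_fin (FreeGroup (Fin k) ⧸ H)
    let ψ₀ : FreeGroup (Fin k) →* Equiv.Perm (FreeGroup (Fin k) ⧸ H) :=
      MulAction.toPermHom _ _
    let ψ : (⊤ : Subgroup (FreeGroup (Fin k))) →* Equiv.Perm (Fin m) :=
      (e.permCongrHom.toMonoidHom.comp ψ₀).comp (Subgroup.subtype _)
    have hkill : ∀ r ∈ relators α, ∃ h : r ∈ (⊤ : Subgroup (FreeGroup (Fin k))),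
        ψ ⟨r, h⟩ = 1 := by
      intro r hr
      refine ⟨Subgroup.mem_top _, ?_⟩
      have : ψ₀ r = 1 := by
        ext x
        induction x using QuotientGroup.induction_on with
        | H x =>
          change ((r * x : FreeGroup (Fin k)) : FreeGroup (Fin k) ⧸ H) = (x : _)
          rw [QuotientGroup.eq]
          apply hNH
          have hn : N.Normal := Subgroup.normalClosure_normal
          have := hn.conj_mem _ (N.inv_mem (hrelN r hr)) x⁻¹
          simpa [mul_assoc] using this
      change e.permCongrHom (ψ₀ r) = 1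
      rw [this, map_one]
    obtain ⟨s, hs, s', hs', hss⟩ := hgood.quot a ha a' ha'
    have := a1 m ψ hkill s s' hs hs'
    change e.permCongrHom (ψ₀ (s' * s⁻¹)) = 1 at this
    rw [hss, ← map_one e.permCongrHom] at this
    have h5 : ψ₀ (a' * a⁻¹) = 1 := e.permCongrHom.injective this
    have h6 : ψ₀ (a' * a⁻¹) ((1 : FreeGroup (Fin k)) : FreeGroup (Fin k) ⧸ H)
        = ((1 : FreeGroup (Fin k)) : FreeGroup (Fin k) ⧸ H) := by rw [h5]; rfl
    change ((a' * a⁻¹ * 1 : FreeGroup (Fin k)) : FreeGroup (Fin k) ⧸ H) = _ at h6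
    rw [mul_one, eq_comm, QuotientGroup.eq] at h6
    simpa using h6
  -- the homomorphism on `H`
  let π : H →* Γ' := ((QuotientGroup.mk' N).comp H.subtype).codRestrict Γ' (fun x => x.2)
  let f : H →* G := φ.comp π
  have hfN : ∀ n (hn : n ∈ N), f ⟨n, hNH hn⟩ = 1 := by
    intro n hn
    change φ (π ⟨n, hNH hn⟩) = 1
    have : π ⟨n, hNH hn⟩ = 1 := by
      apply Subtype.ext
      change (QuotientGroup.mk' N) n = 1
      rw [← MonoidHom.mem_ker, QuotientGroup.ker_mk']
      exact hn
    rw [this, map_one]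
  -- `f` kills all words of even length
  have hfE : ∀ g (hg : g ∈ Ev k), f ⟨g, hEH hg⟩ = 1 := by
    let fE : Ev k →* G := f.comp (Subgroup.inclusion hEH)
    suffices hs : ∀ a ∈ T k, ∀ a' ∈ T k, ∀ h : a' * a⁻¹ ∈ Ev k, fE ⟨a' * a⁻¹, h⟩ = 1 by
      -- the kernel of `fE` contains all quotients
      have hle : Ev k ≤ (fE.ker).map (Ev k).subtype := by
        apply Ev_le_of_quot hk
        intro a ha a' ha'
        have hm : a' * a⁻¹ ∈ Ev k := by
          rw [Ev, MonoidHom.mem_ker, map_mul, map_inv, par_T ha, par_T ha']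
          simp
        exact ⟨⟨a' * a⁻¹, hm⟩, hs a ha a' ha' hm, rfl⟩
      intro g hg
      obtain ⟨x, hx, hxg⟩ := hle hg
      have hx' : x = ⟨g, hg⟩ := Subtype.ext hxg
      rw [hx'] at hx
      exact hx
    intro a ha a' ha' hm
    obtain ⟨s, hs, s', hs', hss⟩ := hgood.quot a ha a' ha'
    by_cases hcase : ∀ r ∈ relators α, r ∈ Ev k
    · have := a3 fE (fun r hr => ⟨hcase r hr, hfN r (hrelN r hr)⟩) s s' hs hs'
      have h7 : (⟨s' * s⁻¹, hEv s hs s' hs'⟩ : Ev k) = ⟨a' * a⁻¹, hm⟩ := Subtype.ext hss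
      rw [h7] at this
      exact this
    · -- then `H` is the whole group
      push Not at hcase
      obtain ⟨r, hr, hrE⟩ := hcase
      have hHtop : ∀ g, g ∈ H := by
        intro g
        by_cases hg : g ∈ Ev k
        · exact hEH hg
        · have h8 : g * r⁻¹ ∈ Ev k := by
            rw [Ev, MonoidHom.mem_ker] at hg hrE ⊢
            rw [map_mul, map_inv]
            rcases Int.units_eq_one_or (par k g) with h | h
            · exact absurd h hg
            · rcases Int.units_eq_one_or (par k r) with h' | h'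
              · exact absurd h' hrE
              · rw [h, h']; decide
          have := H.mul_mem (hEH h8) (hNH (hrelN r hr))
          simpa using this
      let ft : (⊤ : Subgroup (FreeGroup (Fin k))) →* G :=
        f.comp (Subgroup.inclusion (fun g _ => hHtop g))
      have := a2 ft (fun r hr => ⟨Subgroup.mem_top _, hfN r (hrelN r hr)⟩) s s' hs hs'
      have h7 : (⟨s' * s⁻¹, hTop s hs s' hs'⟩ : (⊤ : Subgroup (FreeGroup (Fin k))))
          = ⟨a' * a⁻¹, Subgroup.mem_top _⟩ := Subtype.ext hss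
      rw [h7] at this
      exact this
  intro g hg
  exact ⟨hEH hg, hfE g hg⟩

/-- A product of two elements outside of the even words is even. -/
lemma mul_inv_mem_Ev {g r : FreeGroup (Fin k)} (hg : g ∉ Ev k) (hr : r ∉ Ev k) :
    g * r⁻¹ ∈ Ev k := by
  rw [Ev, MonoidHom.mem_ker] at hg hr ⊢
  rw [map_mul, map_inv]
  rcases Int.units_eq_one_or (par k g) with h | h
  · exact absurd h hg
  · rcases Int.units_eq_one_or (par k r) with h' | h'
    · exact absurd h' hr
    · rw [h, h']; decide

lemma mul_inv_mem_evPart {α : Labellings S Ω} {x y : Gam α} (hx : x ∉ evPart α)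
    (hy : y ∉ evPart α) : x * y⁻¹ ∈ evPart α := by
  obtain ⟨g, rfl⟩ := QuotientGroup.mk'_surjective _ x
  obtain ⟨r, rfl⟩ := QuotientGroup.mk'_surjective _ y
  have hg : g ∉ Ev k := fun h => hx ⟨g, h, rfl⟩
  have hr : r ∉ Ev k := fun h => hy ⟨r, h, rfl⟩
  exact ⟨g * r⁻¹, mul_inv_mem_Ev hg hr, by simp⟩

/-- The map `f` takes at least three values. -/
def ThreeValues {A : Type u} {B : Type v} (f : A → B) : Prop :=
  ∃ x y z, f x ≠ f y ∧ f x ≠ f z ∧ f y ≠ f z

/-- If homomorphisms are trivial on the even part, they take at most two values. -/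
lemma Kills.not_three {α : Labellings S Ω} {G : Type u} [Group G] (h : Kills α G)
    (Γ' : Subgroup (Gam α)) (hΓ' : Γ'.FiniteIndex) (φ : Γ' →* G) : ¬ ThreeValues φ := by
  rintro ⟨x, y, z, hxy, hxz, hyz⟩
  have hk := (h Γ' hΓ' φ).2
  have key : ∀ a b : Γ', ((a : Gam α) ∈ evPart α ↔ (b : Gam α) ∈ evPart α) → φ a = φ b := by
    intro a b hab
    by_cases ha : (a : Gam α) ∈ evPart α
    · rw [hk a ha, hk b (hab.mp ha)]
    · have hb := fun hb => ha (hab.mpr hb)
      have := hk (a * b⁻¹) (by simpa using mul_inv_mem_evPart ha hb)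
      rw [map_mul, map_inv, mul_inv_eq_one] at this
      exact this
  by_cases hx : (x : Gam α) ∈ evPart α <;> by_cases hy : (y : Gam α) ∈ evPart α <;>
    by_cases hz : (z : Gam α) ∈ evPart α
  · exact hxy (key x y (by simp [hx, hy]))
  · exact hxy (key x y (by simp [hx, hy]))
  · exact hxz (key x z (by simp [hx, hz]))
  · exact hyz (key y z (by simp [hy, hz]))
  · exact hyz (key y z (by simp [hy, hz]))
  · exact hxz (key x z (by simp [hx, hz]))
  · exact hxy (key x y (by simp [hx, hy]))
  · exact hxy (key x y (by simp [hx, hy]))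

lemma finite_of_not_three {A : Type u} {B : Type v} {f : A → B} (h : ¬ ThreeValues f) :
    (Set.range f).Finite := by
  classical
  by_contra hinf
  obtain ⟨s, hs, hcard⟩ := (show (Set.range f).Infinite from hinf).exists_subset_card_eq 3
  rw [Finset.card_eq_three] at hcard
  obtain ⟨a, b, c, hab, hac, hbc, rfl⟩ := hcard
  obtain ⟨x, rfl⟩ := hs (by simp : a ∈ _)
  obtain ⟨y, rfl⟩ := hs (by simp : b ∈ _)
  obtain ⟨z, rfl⟩ := hs (by simp : c ∈ _)
  exact h ⟨x, y, z, hab, hac, hbc⟩

/-- The group `L` has a subgroup of finite index which has a homomorphism with at least three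
values to a group in the class `P`. -/
def HasBigHom (P : ∀ (H : Type u) [Group H], Prop) (L : Type u) [Group L] : Prop :=
  ∃ (L' : Subgroup L) (H : Type u) (_ : Group H) (f : L' →* H),
    L'.FiniteIndex ∧ P H ∧ ThreeValues f

/-- `G` is detected by the class `P` of groups: every finitely generated subgroup `L` of `G` with
at least three elements has a subgroup of finite index which has a homomorphism with at least
three values to a group in `P`. -/
def Detected (P : ∀ (H : Type u) [Group H], Prop) (G : Type u) [Group G] : Prop :=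
  ∀ L : Subgroup G, L.FG → ThreeValues (id : L → L) → HasBigHom P L

/-- Finite groups are groups of permutations of `Fin m`. -/
lemma exists_perm (Q : Type u) [Group Q] [Finite Q] :
    ∃ (m : ℕ) (q : Q →* Equiv.Perm (Fin m)), Function.Injective q := by
  obtain ⟨m, ⟨e⟩⟩ := Finite.exists_equiv_fin Q
  refine ⟨m, e.permCongrHom.toMonoidHom.comp (MulAction.toPermHom Q Q), ?_⟩
  intro a b hab
  have h1 : (MulAction.toPermHom Q Q) a = (MulAction.toPermHom Q Q) b :=
    e.permCongrHom.injective hab
  exact MulAction.toPerm_injective h1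

/-- The class of groups to which homomorphisms from subgroups of finite index of `Γ_α` are trivial
on `Γ_α⁺` is closed under detection. -/
lemma kills_detected {α : Labellings S Ω} (hperm : ∀ m : ℕ, Kills α (Equiv.Perm (Fin m)))
    {G : Type u} [Group G] (hG : Detected.{u} (fun H _ => Kills α H) G) : Kills α G := by
  intro Γ' hΓ' φ
  refine ⟨(hperm 0 Γ' hΓ' 1).1, ?_⟩
  have hfgΓ : Group.FG (Gam α) := inferInstance
  have hfg' : Group.FG Γ' := Subgroup.fg_of_index_ne_zero Γ'
  have hfg : φ.range.FG := by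
    rw [← Group.fg_iff_subgroup_fg]
    exact Group.fg_of_surjective φ.rangeRestrict_surjective
  have hnot : ¬ ThreeValues (id : φ.range → φ.range) := by
    intro h3
    obtain ⟨L', H, iH, f, hL', hPH, hf3⟩ := hG φ.range hfg h3
    -- the preimage of `L'`
    let Δ : Subgroup Γ' := L'.comap φ.rangeRestrict
    have hΔ : Δ.FiniteIndex := by
      refine ⟨?_⟩
      rw [Subgroup.index_comap_of_surjective _ φ.rangeRestrict_surjective]
      exact hL'.index_ne_zero
    let Γ'' : Subgroup (Gam α) := Δ.map Γ'.subtype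
    have hΓ'' : Γ''.FiniteIndex := by
      refine ⟨?_⟩
      rw [Subgroup.index_map_subtype]
      exact mul_ne_zero hΔ.index_ne_zero hΓ'.index_ne_zero
    let e : Δ ≃* Γ'' := Δ.equivMapOfInjective Γ'.subtype Γ'.subtype_injective
    let ρ : Δ →* L' := (φ.rangeRestrict.comp Δ.subtype).codRestrict L' (fun x => x.2)
    have hρ : Function.Surjective ρ := by
      rintro ⟨y, hy⟩
      obtain ⟨x, rfl⟩ := φ.rangeRestrict_surjective y
      exact ⟨⟨x, hy⟩, rfl⟩
    let θ : Γ'' →* H := (f.comp ρ).comp e.symm.toMonoidHom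
    apply hPH.not_three Γ'' hΓ'' θ
    obtain ⟨x, y, z, h1, h2, h3⟩ := hf3
    obtain ⟨x, rfl⟩ := hρ x
    obtain ⟨y, rfl⟩ := hρ y
    obtain ⟨z, rfl⟩ := hρ z
    refine ⟨e x, e y, e z, ?_, ?_, ?_⟩ <;> simpa [θ] using by assumption
  have hfin : Finite φ.range := by
    have := finite_of_not_three hnot
    rw [Set.range_id] at this
    exact Set.finite_univ_iff.mp this
  obtain ⟨m, q, hq⟩ := exists_perm φ.range
  intro x hx
  have h1 := (hperm m Γ' hΓ' (q.comp φ.rangeRestrict)).2 x hx
  have h2 : φ.rangeRestrict x = 1 := hq (by rw [map_one]; exact h1)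
  exact congrArg Subtype.val h2

end Pool.Agent.H16M
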