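import Pool.Agent.H16M.Struct
import Pool.Agent.H16M.Malcev
import Pool.Agent.H16M.Targets

/-!
# Random monster groups: the criterion for super-rigidity, and the class of tame groups
-/

set_option autoImplicit false

open MeasureTheory Filter

open scoped ENNReal NNReal

universe u

namespace Pool.Agent.H16M

/-- `G` has an infinite subgroup generated by `m` elements. -/
def InfGen (m : ℕ) (G : Type u) [Group G] : Prop :=
  ∃ x : Fin m → G, Infinite (Subgroup.closure (Set.range x))

variable {k j : ℕ} {V : ℕ → Type} {Ω : ∀ n, SimpleGraph (V n)}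

/-- The uniform distributions are flexible. -/
theorem typical_unif {F : Type} [Group F] (S : LabelSet F) {V : ℕ → Type} [∀ n, Finite (V n)]
    (Ω : ∀ n, SimpleGraph (V n)) : Typical (ae (labMeasure S Ω)) := by
  classical
  refine Or.inr ⟨fun n => unif S (Ω n), inferInstance, ⟨1, one_ne_zero, ?_⟩, rfl⟩
  intro n e β β' _
  let _ : Fintype (Labelling S (Ω n)) := Fintype.ofFinite _
  apply le_of_eq
  unfold unif
  rw [ProbabilityTheory.uniformOn_univ, ProbabilityTheory.uniformOn_univ, Measure.count_singleton,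
    Measure.count_singleton, ENNReal.coe_one, one_mul]

lemma range_lift_eq {m : ℕ} {G : Type u} [Group G] (x : Fin m → G) :
    (FreeGroup.lift x).range = Subgroup.closure (Set.range x) := by
  exact FreeGroup.range_lift_eq_closure

lemma infinite_range_of {G : Type u} [Group G] (H : Subgroup G) (hH : Infinite H) {A : Type}
    [Group A] (ψ : A →* G) (hψ : H ≤ ψ.range) : ¬ (Set.range ψ).Finite := by
  intro hfin
  have h1 : (H : Set G).Finite := hfin.subset (fun x hx => hψ hx)
  have h2 : Finite H := h1
  exact not_finite H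

/-- In the even case all the graphs map to all the Cayley graphs. -/
lemma mapsToCayley_of_evenCase (hk : 2 ≤ k) (h : EvenCase j Ω) {G : Type u} [Group G]
    (ψ : FreeGroup (Fin k) →* G) (n : ℕ) : MapsToCayley (Ω n) (ψ '' TpowSet k j) := by
  classical
  let i0 : Fin k := ⟨0, by omega⟩
  rcases h with h | h
  · obtain ⟨m, hm⟩ := h
    refine ⟨fun _ => 1, fun u v _ => ⟨1, ?_, by simp⟩⟩
    refine ⟨List.replicate m (FreeGroup.of i0) ++ List.replicate m (FreeGroup.of i0)⁻¹, ?_, ?_, ?_⟩
    · simp [hm]
    · intro t ht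
      rw [List.mem_append, List.mem_replicate, List.mem_replicate] at ht
      rcases ht with ⟨-, rfl⟩ | ⟨-, rfl⟩
      · exact ⟨i0, Or.inl rfl⟩
      · exact ⟨i0, Or.inr rfl⟩
    · simp
  · obtain ⟨c⟩ := h n
    have hs : FreeGroup.of i0 ^ j ∈ TpowSet k j :=
      ⟨List.replicate j (FreeGroup.of i0), by simp, fun t ht => by
        rw [List.mem_replicate] at ht
        exact ⟨i0, Or.inl ht.2⟩, by simp⟩
    refine ⟨fun v => if c v = 0 then 1 else ψ (FreeGroup.of i0 ^ j), ?_⟩
    intro u v huv
    have hne := c.valid huv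
    change (if c u = 0 then 1 else ψ (FreeGroup.of i0 ^ j))⁻¹ *
      (if c v = 0 then 1 else ψ (FreeGroup.of i0 ^ j)) ∈ _
    by_cases h1 : c u = 0
    · have h2 : c v ≠ 0 := fun h2 => hne (h1.trans h2.symm)
      rw [if_pos h1, if_neg h2]
      exact ⟨_, hs, by simp⟩
    · have h2 : c v = 0 := by
        have := (c u).2
        have := (c v).2
        omega
      rw [if_neg h1, if_pos h2]
      exact ⟨_, TpowSet_inv hs, by simp⟩

/-- The homomorphism from the free group of rank `k` given by `k - 1` elements, killing the first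
generator. -/
def shift {k : ℕ} {G : Type u} [Group G] (x : Fin (k - 1) → G) : FreeGroup (Fin k) →* G :=
  FreeGroup.lift (fun i => if h : i.1 = 0 then 1 else x ⟨i.1 - 1, by omega⟩)

lemma shift_zero (hk : 2 ≤ k) {G : Type u} [Group G] (x : Fin (k - 1) → G) :
    shift x (FreeGroup.of ⟨0, by omega⟩) = 1 := by
  rw [shift, FreeGroup.lift_apply_of]
  simp

lemma shift_succ {G : Type u} [Group G] (x : Fin (k - 1) → G) (i : Fin (k - 1)) :
    shift x (FreeGroup.of ⟨i.1 + 1, by omega⟩) = x i := by
  rw [shift, FreeGroup.lift_apply_of]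
  simp

lemma mapsToCayley_shift (hk : 2 ≤ k) {G : Type u} [Group G] (x : Fin (k - 1) → G) (n : ℕ) :
    MapsToCayley (Ω n) (shift x '' TpowSet k j) := by
  refine ⟨fun _ => 1, fun u v _ => ⟨FreeGroup.of ⟨0, by omega⟩ ^ j, ?_, ?_⟩⟩
  · refine ⟨List.replicate j (FreeGroup.of ⟨0, by omega⟩), by simp, fun t ht => ?_, by simp⟩
    rw [List.mem_replicate] at ht
    exact ⟨⟨0, by omega⟩, Or.inl ht.2⟩
  · rw [map_pow, shift_zero hk]
    simp

variable {hk : 2 ≤ k}

/-- The criterion. -/
theorem criterion [∀ n, Finite (V n)] {l : Filter (Labellings (Tpow k j hk) Ω)} (hl : Typical l)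
    (hj : 1 ≤ j) (G : Type u) [Group G] [Countable G] :
    SuperRigidFamily G l ↔ (InfCyc Ω ∨ ∀ ψ : FreeGroup (Fin k) →* G,
      (∀ n, MapsToCayley (Ω n) (ψ '' TpowSet k j)) → (Set.range ψ).Finite) := by
  constructor
  · intro h
    by_cases hΩ : InfCyc Ω
    · exact Or.inl hΩ
    · exact Or.inr fun ψ hψ => finite_of_superRigidFamily hl hΩ h ψ hψ
  · rintro (h | h)
    · rw [superRigidFamily_iff]
      unfold SuperRigid
      filter_upwards [typical_kills hl hk h (good_Tpow hk hj) (quot_mem_Ev_Tpow hk) G] with α hα φ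
      have := finite_of_not_three
        (hα.not_three ⊤ inferInstance (φ.comp (Subgroup.subtype (⊤ : Subgroup (Gam α)))))
      refine this.subset ?_
      rintro _ ⟨x, rfl⟩
      exact ⟨⟨x, trivial⟩, rfl⟩
    · exact superRigidFamily_of_superRigid (superRigid_of_cayley h)

theorem hereditary [∀ n, Finite (V n)] {l : Filter (Labellings (Tpow k j hk) Ω)} (hl : Typical l)
    (hj : 1 ≤ j) (hΩ : InfCyc Ω) (G : Type u) [Group G] [Countable G] :
    HereditarySuperRigid G l := by
  unfold HereditarySuperRigid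
  filter_upwards [typical_kills hl hk hΩ (good_Tpow hk hj) (quot_mem_Ev_Tpow hk) G]
    with α hα Γ' hΓ' φ
  exact finite_of_not_three (hα.not_three Γ' hΓ' φ)

theorem criterion_infGen [∀ n, Finite (V n)] {l : Filter (Labellings (Tpow k j hk) Ω)}
    (hl : Typical l) (hj : 1 ≤ j) (G : Type u) [Group G] [Countable G] (hG : InfGen (k - 1) G) :
    (SuperRigidFamily G l ↔ InfCyc Ω) ∧ (HereditarySuperRigid G l ↔ InfCyc Ω) := by
  have h1 : SuperRigidFamily G l → InfCyc Ω := by
    intro h
    rcases (criterion hl hj G).mp h with h | h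
    · exact h
    · exfalso
      obtain ⟨x, hx⟩ := hG
      refine infinite_range_of _ hx (shift x) ?_ (h (shift x) (mapsToCayley_shift hk x))
      rw [Subgroup.closure_le]
      rintro _ ⟨i, rfl⟩
      exact ⟨_, shift_succ x i⟩
  have h2 : InfCyc Ω → HereditarySuperRigid G l := fun h => hereditary hl hj h G
  have h3 : HereditarySuperRigid G l → SuperRigidFamily G l :=
    fun h => superRigidFamily_of_superRigid (superRigid_of_hereditary h)
  exact ⟨⟨h1, fun h => h3 (h2 h)⟩, ⟨fun h => h1 (h3 h), h2⟩⟩

theorem criterion_even [∀ n, Finite (V n)] {l : Filter (Labellings (Tpow k j hk) Ω)}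
    (hl : Typical l) (hj : 1 ≤ j) (G : Type u) [Group G] [Countable G] (hE : EvenCase j Ω) :
    SuperRigidFamily G l ↔ (InfCyc Ω ∨ ¬ InfGen k G) := by
  rw [criterion hl hj G]
  constructor
  · rintro (h | h)
    · exact Or.inl h
    · right
      rintro ⟨x, hx⟩
      refine infinite_range_of _ hx (FreeGroup.lift x) ?_
        (h (FreeGroup.lift x) (mapsToCayley_of_evenCase hk hE _))
      rw [range_lift_eq]
  · rintro (h | h)
    · exact Or.inl h
    · right
      intro ψ _
      have h1 : ψ.range = Subgroup.closure (Set.range fun i => ψ (FreeGroup.of i)) := by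
        rw [← range_lift_eq]
        congr 1
        ext i
        simp
      by_contra hinf
      apply h
      refine ⟨fun i => ψ (FreeGroup.of i), ?_⟩
      rw [← h1]
      exact Set.infinite_coe_iff.mpr hinf

/-- If only finitely many graphs contain a cycle then non-negligibly many of the random groups map
onto the free group of rank `k - 1`. -/
theorem maps_onto_free [∀ n, Finite (V n)] {l : Filter (Labellings (Tpow k j hk) Ω)}
    (hl : Typical l) (hΩ : ¬ InfCyc Ω) :
    ∃ᶠ α in l, ∃ f : Gam α →* FreeGroup (Fin (k - 1)), Function.Surjective f := by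
  classical
  have hfin : {n | ¬ (Ω n).IsAcyclic}.Finite := Set.not_infinite.mp hΩ
  have hJ : ∀ n, n ∉ hfin.toFinset → (Ω n).IsAcyclic := by
    intro n hn
    by_contra hc
    exact hn (by simpa using hc)
  choose β hβ using fun n => exists_labelling (S := Tpow k j hk) (shift (FreeGroup.of))
    (mapsToCayley_shift (Ω := Ω) hk (FreeGroup.of) n)
  refine (frequently_cylinder hl hfin.toFinset β).mono ?_
  intro α hα
  have hker := agree_relators hJ hα _ hβ
  refine ⟨QuotientGroup.lift _ (shift (FreeGroup.of)) hker, ?_⟩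
  rw [← MonoidHom.range_eq_top, eq_top_iff, ← FreeGroup.closure_range_of, Subgroup.closure_le]
  rintro _ ⟨i, rfl⟩
  exact ⟨QuotientGroup.mk (FreeGroup.of ⟨i.1 + 1, by omega⟩), shift_succ _ i⟩

/-- If only finitely many graphs contain a cycle, and `j` is even or all graphs are bipartite, then
non-negligibly many of the random groups are free of rank `k`. -/
theorem is_free [∀ n, Finite (V n)] {l : Filter (Labellings (Tpow k j hk) Ω)}
    (hl : Typical l) (hΩ : ¬ InfCyc Ω) (hE : EvenCase j Ω) :
    ∃ᶠ α in l, Function.Bijective (cl α) := by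
  classical
  have hfin : {n | ¬ (Ω n).IsAcyclic}.Finite := Set.not_infinite.mp hΩ
  have hJ : ∀ n, n ∉ hfin.toFinset → (Ω n).IsAcyclic := by
    intro n hn
    by_contra hc
    exact hn (by simpa using hc)
  choose β hβ using fun n => exists_labelling (S := Tpow k j hk)
    (MonoidHom.id (FreeGroup (Fin k))) (mapsToCayley_of_evenCase hk hE _ n)
  refine (frequently_cylinder hl hfin.toFinset β).mono ?_
  intro α hα
  have hker := agree_relators hJ hα _ hβ
  refine ⟨?_, QuotientGroup.mk'_surjective _⟩
  rw [← MonoidHom.ker_eq_bot_iff, QuotientGroup.ker_mk', eq_bot_iff]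
  exact hker

/-- Properties of the class of tame groups. -/
structure TameFacts {I : Type} (𝓕 : I → Type u) [∀ i, Group (𝓕 i)] : Prop where
  member : ∀ i, Tame 𝓕 (𝓕 i)
  subFP : ∀ (G : Type u) [Group G], SubFP G → Tame 𝓕 G
  biautomatic : ∀ (G : Type u) [Group G], IsBiautomatic G → Tame 𝓕 G
  residuallyFinite : ∀ (G : Type u) [Group G], Group.ResiduallyFinite G → Tame 𝓕 G
  linear : ∀ (G : Type u) [Group G] (K : Type u) [Field K] (n : ℕ) (f : G →* GL (Fin n) K),
    Function.Injective f → Tame 𝓕 G
  locallyIndicable : ∀ (G : Type u) [Group G], LocallyIndicable G → Tame 𝓕 G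
  elemAmenable : ∀ (G : Type u) [i : Group G], ElemAmenable G i → Tame 𝓕 G
  subgroup : ∀ (G H : Type u) [Group G] [Group H] (f : G →* H), Function.Injective f →
    Tame 𝓕 H → Tame 𝓕 G
  extension : ∀ (G Q : Type u) [Group G] [Group Q] (π : G →* Q), Tame 𝓕 π.ker → Tame 𝓕 Q →
    Tame 𝓕 G
  product : ∀ (J : Type u) (G : J → Type u) [∀ j, Group (G j)], (∀ j, Tame 𝓕 (G j)) →
    Tame 𝓕 (∀ j, G j)
  residual : ∀ (G : Type u) [Group G],
    (∀ g : G, g ≠ 1 → ∃ (H : Type u) (_ : Group H) (f : G →* H), Tame 𝓕 H ∧ f g ≠ 1) → Tame 𝓕 G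
  localGroup : ∀ (G : Type u) [Group G], (∀ L : Subgroup G, L.FG → Tame 𝓕 L) → Tame 𝓕 G

theorem tameFacts {I : Type} (𝓕 : I → Type u) [∀ i, Group (𝓕 i)] : TameFacts 𝓕 where
  member := tame_member
  subFP := fun _ _ h => tame_of_subFP h
  biautomatic := fun _ _ h => tame_of_subFP (subFP_of_biautomatic h)
  residuallyFinite := fun _ _ h => tame_of_residuallyFinite h
  linear := fun _ _ K _ n f hf => tame_of_linear K n f hf
  locallyIndicable := fun _ _ h => tame_of_locallyIndicable h
  elemAmenable := fun _ _ h => tame_of_elemAmenable h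
  subgroup := fun _ _ _ _ f hf h => tame_of_injective f hf h
  extension := fun _ _ _ _ π h1 h2 => tame_of_ext π h1 h2
  product := fun _ G _ h => tame_pi G h
  residual := fun _ _ h => tame_of_residual h
  localGroup := fun _ _ h => tame_of_local h

section Names

variable {k j : ℕ} {hk : 2 ≤ k} {V : ℕ → Type} {Ω : ∀ n, SimpleGraph (V n)}
  (l : Filter (Labellings (Tpow k j hk) Ω))

/-- For every countable family `𝓕` of countable groups and typical labellings `α`, the complete
description `Rigid 𝓕 α` of all homomorphisms from subgroups of finite index of `Γ_α` to all groups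
in `Tame 𝓕`. -/
def RigidAll.{v} : Prop :=
  ∀ (I : Type) [Countable I] (𝓕 : I → Type v) [∀ i, Group (𝓕 i)] [∀ i, Countable (𝓕 i)],
    ∀ᶠ α in l, Rigid 𝓕 α

/-- Non-negligibly many random groups map onto a free group of rank `k - 1`. -/
def OftenOnto : Prop :=
  ∃ᶠ α in l, ∃ f : Gam α →* FreeGroup (Fin (k - 1)), Function.Surjective f

/-- Non-negligibly many random groups are free of rank `k`. -/
def OftenFree : Prop := ∃ᶠ α in l, Function.Bijective (cl α)

/-- All homomorphisms `ψ : F_k → G`, such that all the graphs map to the Cayley graph of `G` with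
respect to `ψ (T^j)`, have finite image. -/
def CayleyFinite (k j : ℕ) {V : ℕ → Type} (Ω : ∀ n, SimpleGraph (V n)) (G : Type u) [Group G] :
    Prop :=
  ∀ ψ : FreeGroup (Fin k) →* G, (∀ n, MapsToCayley (Ω n) (ψ '' TpowSet k j)) →
    (Set.range ψ).Finite

/-- The criterion for super-rigidity with respect to countable groups `G`, and its simple forms if
`G` has an infinite subgroup generated by `k - 1` elements, and in the even case. -/
def Criterion.{v} : Prop :=
  ∀ (G : Type v) [Group G] [Countable G],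
    (SuperRigidFamily G l ↔ (InfCyc Ω ∨ CayleyFinite k j Ω G)) ∧
    (InfGen (k - 1) G →
      (SuperRigidFamily G l ↔ InfCyc Ω) ∧ (HereditarySuperRigid G l ↔ InfCyc Ω)) ∧
    (EvenCase j Ω → (SuperRigidFamily G l ↔ (InfCyc Ω ∨ ¬ InfGen k G)))

/-- Everything that is proved about the typical labellings with respect to the filter `l`. -/
def Complete.{v} : Prop :=
  (InfCyc Ω → RigidAll.{v} l) ∧
  (¬ InfCyc Ω → OftenOnto l ∧ (EvenCase j Ω → OftenFree l)) ∧
  Criterion.{v} l

variable {l}

theorem complete.{v} [∀ n, Finite (V n)] (hj : 1 ≤ j) (hl : Typical l) : Complete.{v} l :=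
  ⟨fun h _ _ 𝓕 _ _ => typical_rigid hl hj h 𝓕,
    fun h => ⟨maps_onto_free hl h, is_free hl h⟩,
    fun G _ _ => ⟨criterion hl hj G, criterion_infGen hl hj G, criterion_even hl hj G⟩⟩

end Names

theorem index_evPart (α : Labellings (Tpow k j hk) Ω) :
    (EvenCase j Ω → (evPart α).index = 2) ∧ (¬ EvenCase j Ω → evPart α = ⊤) := by
  rw [← relators_even_iff α]
  exact ⟨index_evPart_two hk α, evPart_eq_top α⟩

end Pool.Agent.H16M
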