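import Pool.Agent.H16M.Main

/-!
# Automorphism groups and outer automorphism groups of finitely presented groups
-/

set_option autoImplicit false

open MeasureTheory Filter

universe u

namespace Pool.Agent.H16M

/-- Isomorphic groups have isomorphic outer automorphism groups. -/
def outerCongr {A B : Type u} [Group A] [Group B] (e : A ≃* B) : Outer A ≃* Outer B :=
  QuotientGroup.congr _ _ (MulAut.congr e) (by
    ext θ
    constructor
    · rintro ⟨_, ⟨a, rfl⟩, rfl⟩
      refine ⟨e a, ?_⟩
      ext x
      simp [MulAut.congr]
    · rintro ⟨b, rfl⟩
      refine ⟨MulAut.conj (e.symm b), ⟨_, rfl⟩, ?_⟩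
      ext x
      simp [MulAut.congr])

/-- The presentations of groups with finitely many generators and relators. -/
abbrev Pres : Type := Σ n : ℕ, Finset (FreeGroup (Fin n))

/-- The group with the given presentation. -/
abbrev grp (p : Pres) : Type := PresentedGroup (p.2 : Set (FreeGroup (Fin p.1)))

/-- The family of the groups `Aut(A) × Out(A)` for all finitely presented groups `A`. -/
def AutOut (p : Pres) : Type := MulAut (grp p) × Outer (grp p)

instance instGroupAutOut (p : Pres) : Group (AutOut p) :=
  Prod.instGroup (G := MulAut (grp p)) (H := Outer (grp p))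

/-- The inclusion of `Out(A)` into the product. -/
def outIncl (p : Pres) : Outer (grp p) →* AutOut p :=
  MonoidHom.inr (MulAut (grp p)) (Outer (grp p))

/-- The inclusion of `Aut(A)` into the product. -/
def autIncl (p : Pres) : MulAut (grp p) →* AutOut p :=
  MonoidHom.inl (MulAut (grp p)) (Outer (grp p))

instance countable_grp (p : Pres) : Countable (grp p) :=
  (QuotientGroup.mk'_surjective (Subgroup.normalClosure (p.2 : Set (FreeGroup (Fin p.1))))).countable

instance fg_grp (p : Pres) : Group.FG (grp p) :=
  Group.fg_of_surjective
    (f := QuotientGroup.mk' (Subgroup.normalClosure (p.2 : Set (FreeGroup (Fin p.1)))))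
    (QuotientGroup.mk'_surjective _)

lemma countable_aut (A : Type) [Group A] [Group.FG A] [Countable A] : Countable (MulAut A) := by
  have h1 : Countable (A →* A) := countable_hom A A
  let f : MulAut A → (A →* A) := fun θ => θ.toMonoidHom
  refine Function.Injective.countable (f := f) ?_
  intro θ θ' h
  ext x
  exact DFunLike.congr_fun h x

instance countable_autOut (p : Pres) : Countable (AutOut p) := by
  have h1 : Countable (MulAut (grp p)) := countable_aut (grp p)
  have h2 : Countable (Outer (grp p)) := countable_outer (grp p)
  exact inferInstanceAs (Countable (MulAut (grp p) × Outer (grp p)))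

lemma exists_grp (A : Type) [Group A] (h : Group.IsFinitelyPresented A) :
    ∃ p : Pres, Nonempty (A ≃* grp p) := by
  obtain ⟨n, s, hs, he⟩ := Group.IsFinitelyPresented.exists_mulEquiv_presentedGroup (G := A)
  lift s to Finset (FreeGroup (Fin n)) using hs
  exact ⟨⟨n, s⟩, he⟩

/-- The automorphism groups and the outer automorphism groups of finitely presented groups are in
the class `Tame AutOut`. -/
theorem tame_autOut (A : Type) [Group A] (h : Group.IsFinitelyPresented A) :
    Tame AutOut (Outer A) ∧ Tame AutOut (MulAut A) := by
  obtain ⟨p, ⟨e⟩⟩ := exists_grp A h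
  have h1 : Tame AutOut (AutOut p) := tame_member (𝓕 := AutOut) p
  constructor
  · refine tame_of_injective ((outIncl p).comp (outerCongr e).toMonoidHom) ?_ h1
    have h2 : Function.Injective (outIncl p) := fun a b hab => congrArg Prod.snd hab
    exact h2.comp (outerCongr e).injective
  · refine tame_of_injective ((autIncl p).comp (MulAut.congr e).toMonoidHom) ?_ h1
    have h2 : Function.Injective (autIncl p) := fun a b hab => congrArg Prod.fst hab
    exact h2.comp (MulAut.congr e).injective

/-- Right-angled Artin groups of finite graphs are finitely presented. -/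
theorem raag_fp {W : Type} [Finite W] (Λ : SimpleGraph W) :
    Group.IsFinitelyPresented (RAAG Λ) := by
  have hfin : (raagRels Λ).Finite := by
    have : raagRels Λ ⊆ Set.range (fun p : W × W => FreeGroup.of p.1 * FreeGroup.of p.2 *
        (FreeGroup.of p.1)⁻¹ * (FreeGroup.of p.2)⁻¹) := by
      rintro r ⟨u, v, -, rfl⟩
      exact ⟨(u, v), rfl⟩
    exact (Set.finite_range _).subset this
  have : Finite (raagRels Λ) := hfin
  infer_instance

end Pool.Agent.H16M
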