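import Pool.Agent.H16M.OutFP

/-!
# Outer automorphisms of infinite order of right-angled Artin groups
-/

set_option autoImplicit false

open MeasureTheory Filter

universe u

namespace Pool.Agent.H16M

variable {W : Type} {Λ : SimpleGraph W}

/-- There are different vertices `v`, `w` such that all neighbours of `v` other than `w` are
neighbours of `w` (then there is the transvection `v ↦ v w`). -/
def HasTransvection (Λ : SimpleGraph W) : Prop :=
  ∃ v w : W, v ≠ w ∧ ∀ x, Λ.Adj v x → x = w ∨ Λ.Adj w x

/-- The star of some vertex `u` separates the graph: the complement of the star of `u` is the union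
of two nonempty sets `C` and `D` without edges between them (then there is the partial conjugation
of `C` by `u`). -/
def HasSeparatingStar (Λ : SimpleGraph W) : Prop :=
  ∃ (u : W) (C D : Set W), C.Nonempty ∧ D.Nonempty ∧ Disjoint C D ∧
    (∀ z, (z ∈ C ∨ z ∈ D) ↔ (z ≠ u ∧ ¬ Λ.Adj u z)) ∧ ∀ a ∈ C, ∀ b ∈ D, ¬ Λ.Adj a b

/-- The generator of the right-angled Artin group. -/
abbrev gen (Λ : SimpleGraph W) (z : W) : RAAG Λ := PresentedGroup.of z

lemma gen_comm {a b : W} (h : Λ.Adj a b) : gen Λ a * gen Λ b = gen Λ b * gen Λ a := by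
  have h1 : (PresentedGroup.mk (raagRels Λ))
      (FreeGroup.of a * FreeGroup.of b * (FreeGroup.of a)⁻¹ * (FreeGroup.of b)⁻¹) = 1 :=
    PresentedGroup.one_of_mem ⟨a, b, h, rfl⟩
  rw [map_mul, map_mul, map_mul, map_inv, map_inv, mul_inv_eq_one, mul_inv_eq_iff_eq_mul] at h1
  exact h1

/-- A homomorphism from a right-angled Artin group. -/
def raagHom {G : Type u} [Group G] (f : W → G) (hf : ∀ a b, Λ.Adj a b → f a * f b = f b * f a) :
    RAAG Λ →* G :=
  PresentedGroup.toGroup (f := f) (by
    rintro r ⟨a, b, hab, rfl⟩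
    simp only [map_mul, map_inv, FreeGroup.lift_apply_of]
    rw [mul_inv_eq_one, mul_inv_eq_iff_eq_mul]
    exact hf a b hab)

lemma raagHom_gen {G : Type u} [Group G] (f : W → G)
    (hf : ∀ a b, Λ.Adj a b → f a * f b = f b * f a) (z : W) :
    raagHom (Λ := Λ) f hf (gen Λ z) = f z := PresentedGroup.toGroup.of _

lemma raag_ext {G : Type u} [Group G] {f g : RAAG Λ →* G} (h : ∀ z, f (gen Λ z) = g (gen Λ z)) :
    f = g := PresentedGroup.ext h

/-- A one-parameter group of automorphisms of a right-angled Artin group. -/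
lemma exists_family (f : ℤ → W → RAAG Λ)
    (hrel : ∀ n a b, Λ.Adj a b → f n a * f n b = f n b * f n a)
    (h0 : ∀ z, f 0 z = gen Λ z)
    (hcomp : ∀ m n z, raagHom (f m) (hrel m) (f n z) = f (m + n) z) :
    ∃ F : Multiplicative ℤ →* MulAut (RAAG Λ), ∀ (n : ℤ) (z : W),
      F (Multiplicative.ofAdd n) (gen Λ z) = f n z := by
  have hc : ∀ m n x, raagHom (f m) (hrel m) (raagHom (f n) (hrel n) x) =
      raagHom (f (m + n)) (hrel (m + n)) x := by
    intro m n x
    have : (raagHom (f m) (hrel m)).comp (raagHom (f n) (hrel n)) =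
        raagHom (f (m + n)) (hrel (m + n)) := by
      apply raag_ext
      intro z
      rw [MonoidHom.comp_apply, raagHom_gen, raagHom_gen, hcomp]
    exact DFunLike.congr_fun this x
  have hone : ∀ x, raagHom (f 0) (hrel 0) x = x := by
    intro x
    have : raagHom (f 0) (hrel 0) = MonoidHom.id _ := by
      apply raag_ext
      intro z
      rw [raagHom_gen, h0]
      rfl
    rw [this]
    rfl
  let A : ℤ → MulAut (RAAG Λ) := fun n =>
    { toFun := raagHom (f n) (hrel n)
      invFun := raagHom (f (-n)) (hrel (-n))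
      left_inv := fun x => by rw [hc, neg_add_cancel, hone]
      right_inv := fun x => by rw [hc, add_neg_cancel, hone]
      map_mul' := map_mul _ }
  refine ⟨MonoidHom.mk' (fun n => A n.toAdd) ?_, ?_⟩
  · intro m n
    ext x
    exact (hc m.toAdd n.toAdd x).symm
  · intro n z
    exact raagHom_gen (f n) (hrel n) z

lemma infGen_of_hom {G : Type u} [Group G] (F : Multiplicative ℤ →* G)
    (hF : Function.Injective F) (m : ℕ) (hm : 1 ≤ m) : InfGen m G := by
  refine ⟨fun _ => F (Multiplicative.ofAdd 1), ?_⟩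
  have hmem : ∀ n : ℤ, F (Multiplicative.ofAdd n) ∈
      Subgroup.closure (Set.range fun _ : Fin m => F (Multiplicative.ofAdd 1)) := by
    intro n
    have h1 : F (Multiplicative.ofAdd n) = F (Multiplicative.ofAdd 1) ^ n := by
      rw [← map_zpow, ← ofAdd_zsmul]
      simp
    rw [h1]
    apply Subgroup.zpow_mem
    exact Subgroup.subset_closure ⟨⟨0, by omega⟩, rfl⟩
  refine Infinite.of_injective (fun n : ℤ => (⟨F (Multiplicative.ofAdd n), hmem n⟩ :
    Subgroup.closure (Set.range fun _ : Fin m => F (Multiplicative.ofAdd 1)))) ?_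
  intro a b hab
  have h1 : F (Multiplicative.ofAdd a) = F (Multiplicative.ofAdd b) := congrArg Subtype.val hab
  exact Multiplicative.ofAdd.injective (hF h1)

lemma infGen_outer (F : Multiplicative ℤ →* MulAut (RAAG Λ))
    (hF : ∀ (n : ℤ) (g : RAAG Λ), F (Multiplicative.ofAdd n) = MulAut.conj g → n = 0)
    (m : ℕ) (hm : 1 ≤ m) : InfGen m (Outer (RAAG Λ)) := by
  refine infGen_of_hom ((QuotientGroup.mk' (MulAut.conj (G := RAAG Λ)).range).comp F) ?_ m hm
  rw [injective_iff_map_eq_one]
  intro n hn
  have h1 : F n ∈ (QuotientGroup.mk' (MulAut.conj (G := RAAG Λ)).range).ker := hn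
  rw [QuotientGroup.ker_mk'] at h1
  obtain ⟨g, hg⟩ := h1
  have h2 := hF n.toAdd g hg.symm
  exact Multiplicative.toAdd.injective h2

/-- Transvections have infinite order in the outer automorphism group. -/
theorem infGen_of_transvection (h : HasTransvection Λ) (m : ℕ) (hm : 1 ≤ m) :
    InfGen m (Outer (RAAG Λ)) := by
  classical
  obtain ⟨v, w, hvw, hlk⟩ := h
  let f : ℤ → W → RAAG Λ := fun n z => if z = v then gen Λ v * gen Λ w ^ n else gen Λ z
  have fv : ∀ n, f n v = gen Λ v * gen Λ w ^ n := fun n => if_pos rfl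
  have fne : ∀ n z, z ≠ v → f n z = gen Λ z := fun n z hz => if_neg hz
  have hv : ∀ (n : ℤ) (b : W), Λ.Adj v b →
      gen Λ v * gen Λ w ^ n * gen Λ b = gen Λ b * (gen Λ v * gen Λ w ^ n) := by
    intro n b hb
    have h1 : Commute (gen Λ v) (gen Λ b) := gen_comm hb
    have h2 : Commute (gen Λ w) (gen Λ b) := by
      rcases hlk b hb with h | h
      · rw [h]
      · exact gen_comm h
    exact (h1.mul_left (h2.zpow_left n)).eq
  have hrel : ∀ n a b, Λ.Adj a b → f n a * f n b = f n b * f n a := by
    intro n a b hab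
    by_cases ha : a = v
    · subst ha
      rw [fv, fne n b hab.ne']
      exact hv n b hab
    · by_cases hb : b = v
      · subst hb
        rw [fv, fne n a ha]
        exact (hv n a hab.symm).symm
      · rw [fne n a ha, fne n b hb]
        exact gen_comm hab
  obtain ⟨F, hF⟩ := exists_family f hrel
    (fun z => by
      by_cases hz : z = v
      · rw [hz, fv, zpow_zero, mul_one]
      · exact fne 0 z hz)
    (fun m n z => by
      by_cases hz : z = v
      · rw [hz, fv, map_mul, map_zpow, raagHom_gen, raagHom_gen, fv, fv, fne m w hvw.symm, mul_assoc,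
          ← zpow_add]
      · rw [fne n z hz, raagHom_gen, fne m z hz, fne _ z hz])
  refine infGen_outer F ?_ m hm
  intro n g hg
  let χ : RAAG Λ →* Multiplicative ℤ :=
    raagHom (fun z => if z = w then Multiplicative.ofAdd 1 else 1) (fun a b _ => mul_comm _ _)
  have h1 : χ (F (Multiplicative.ofAdd n) (gen Λ v)) = Multiplicative.ofAdd n := by
    rw [hF, fv, map_mul, map_zpow, raagHom_gen, raagHom_gen, if_neg hvw, if_pos rfl, one_mul,
      ← ofAdd_zsmul]
    simp
  have h2 : χ (F (Multiplicative.ofAdd n) (gen Λ v)) = 1 := by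
    rw [hg, MulAut.conj_apply, map_mul, map_mul, map_inv, raagHom_gen, if_neg hvw]
    simp
  rw [h1] at h2
  exact h2

/-- Partial conjugations have infinite order in the outer automorphism group. -/
theorem infGen_of_separatingStar (h : HasSeparatingStar Λ) (m : ℕ) (hm : 1 ≤ m) :
    InfGen m (Outer (RAAG Λ)) := by
  classical
  obtain ⟨u, C, D, ⟨x, hx⟩, ⟨y, hy⟩, hCD, hst, hnadj⟩ := h
  have huC : u ∉ C := fun h => ((hst u).mp (Or.inl h)).1 rfl
  have hyC : y ∉ C := fun h => Set.disjoint_left.mp hCD h hy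
  have hC : ∀ z ∈ C, ¬ Λ.Adj u z := fun z hz => ((hst z).mp (Or.inl hz)).2
  let f : ℤ → W → RAAG Λ := fun n z =>
    if z ∈ C then gen Λ u ^ n * gen Λ z * (gen Λ u ^ n)⁻¹ else gen Λ z
  have fC : ∀ n z, z ∈ C → f n z = gen Λ u ^ n * gen Λ z * (gen Λ u ^ n)⁻¹ :=
    fun n z hz => if_pos hz
  have fne : ∀ n z, z ∉ C → f n z = gen Λ z := fun n z hz => if_neg hz
  have hb : ∀ (n : ℤ) (a b : W), a ∈ C → b ∉ C → Λ.Adj a b → f n a * f n b = f n b * f n a := by
    intro n a b ha hb hab
    have h1 : Commute (gen Λ u ^ n) (gen Λ b) := by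
      have hbD : b ∉ D := fun h => hnadj a ha b h hab
      have hbu : b = u ∨ Λ.Adj u b := by
        by_contra hcon
        push Not at hcon
        rcases (hst b).mpr hcon with h | h
        · exact hb h
        · exact hbD h
      apply Commute.zpow_left
      rcases hbu with h | h
      · rw [h]
      · exact gen_comm h
    have h2 : Commute (gen Λ a) (gen Λ b) := gen_comm hab
    rw [fC n a ha, fne n b hb]
    exact ((h1.mul_left h2).mul_left h1.inv_left).eq
  have hrel : ∀ n a b, Λ.Adj a b → f n a * f n b = f n b * f n a := by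
    intro n a b hab
    by_cases ha : a ∈ C <;> by_cases hb' : b ∈ C
    · rw [fC n a ha, fC n b hb']
      have h2 : gen Λ a * gen Λ b = gen Λ b * gen Λ a := gen_comm hab
      calc gen Λ u ^ n * gen Λ a * (gen Λ u ^ n)⁻¹ * (gen Λ u ^ n * gen Λ b * (gen Λ u ^ n)⁻¹)
          = gen Λ u ^ n * (gen Λ a * gen Λ b) * (gen Λ u ^ n)⁻¹ := by group
        _ = gen Λ u ^ n * (gen Λ b * gen Λ a) * (gen Λ u ^ n)⁻¹ := by rw [h2]
        _ = _ := by group
    · exact hb n a b ha hb' hab
    · exact (hb n b a hb' ha hab.symm).symm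
    · rw [fne n a ha, fne n b hb']
      exact gen_comm hab
  obtain ⟨F, hF⟩ := exists_family f hrel
    (fun z => by
      by_cases hz : z ∈ C
      · rw [fC 0 z hz, zpow_zero]
        group
      · exact fne 0 z hz)
    (fun m n z => by
      by_cases hz : z ∈ C
      · rw [fC n z hz, map_mul, map_mul, map_inv, map_zpow, raagHom_gen, raagHom_gen, fne m u huC,
          fC m z hz, fC (m + n) z hz, zpow_add]
        have h3 : Commute (gen Λ u ^ m) (gen Λ u ^ n) := Commute.zpow_zpow_self _ _ _
        rw [h3.eq]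
        group
      · rw [fne n z hz, raagHom_gen, fne m z hz, fne _ z hz])
  refine infGen_outer F ?_ m hm
  intro n g hg
  -- a representation by permutations of the integers
  let U : Equiv.Perm ℤ := Equiv.addRight 1
  let Y : Equiv.Perm ℤ := Equiv.swap 0 1
  have hxu : x ≠ u := fun h => huC (h ▸ hx)
  have hyu : y ≠ u := ((hst y).mp (Or.inr hy)).1
  have huy : ¬ Λ.Adj u y := ((hst y).mp (Or.inr hy)).2
  let ρ : RAAG Λ →* Equiv.Perm ℤ :=
    raagHom (fun z => if z = u then U else if z = x ∨ z = y then Y else 1) (by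
      have key : ∀ b, Λ.Adj u b → (if b = u then U else if b = x ∨ b = y then Y else 1) = 1 := by
        intro b hb
        rw [if_neg hb.ne', if_neg]
        rintro (h | h)
        · exact hC x hx (h ▸ hb)
        · exact huy (h ▸ hb)
      intro a b hab
      by_cases ha : a = u
      · subst ha
        rw [key b hab]
        simp
      · by_cases hb : b = u
        · subst hb
          rw [key a hab.symm]
          simp
        · simp only [if_neg ha, if_neg hb]
          split_ifs <;> simp)
  have ρu : ρ (gen Λ u) = U := by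
    rw [raagHom_gen, if_pos rfl]
  have ρx : ρ (gen Λ x) = Y := by
    rw [raagHom_gen, if_neg hxu, if_pos (Or.inl rfl)]
  have ρy : ρ (gen Λ y) = Y := by
    rw [raagHom_gen, if_neg hyu, if_pos (Or.inr rfl)]
  have h1 : ρ g * Y * (ρ g)⁻¹ = Y := by
    have h := congrArg ρ (hF n y)
    rw [hg, fne n y hyC, MulAut.conj_apply, map_mul, map_mul, map_inv, ρy] at h
    exact h
  have h2 : U ^ n * Y * (U ^ n)⁻¹ = Y := by
    have h := congrArg ρ (hF n x)
    rw [hg, fC n x hx, MulAut.conj_apply, map_mul, map_mul, map_inv, map_mul, map_mul, map_inv,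
      map_zpow, ρx, ρu, h1] at h
    exact h.symm
  have hUn : ∀ (n a : ℤ), (U ^ n) a = a + n := by
    intro n
    induction n using Int.induction_on with
    | zero => intro a; simp
    | succ i ih =>
      intro a
      rw [zpow_add_one, Equiv.Perm.mul_apply, ih]
      change a + 1 + i = _
      ring
    | pred i ih =>
      intro a
      have h : U⁻¹ a = a + -1 := rfl
      rw [zpow_sub_one, Equiv.Perm.mul_apply, ih, h]
      ring
  have h3 := DFunLike.congr_fun (mul_inv_eq_iff_eq_mul.mp h2) 0
  rw [Equiv.Perm.mul_apply, Equiv.Perm.mul_apply, hUn, hUn] at h3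
  have h4 : Y 0 = 1 := Equiv.swap_apply_left 0 1
  rw [h4, zero_add] at h3
  by_contra hn
  by_cases hn1 : n = 1
  · rw [hn1] at h3
    have h5 : Y 1 = 0 := Equiv.swap_apply_right 0 1
    rw [h5] at h3
    omega
  · have h5 : Y n = n := Equiv.swap_apply_of_ne_of_ne hn hn1
    rw [h5] at h3
    omega

end Pool.Agent.H16M
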