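import Pool.Agent.H16M.Amenable
import Pool.Agent.H16M.Conv
import Pool.Agent.H16M.Tree

/-!
# Random monster groups: the even part, and the description of all homomorphisms
-/

set_option autoImplicit false

open MeasureTheory Filter

universe u

namespace Pool.Agent.H16M

/-- `j` is even or all graphs are bipartite. -/
def EvenCase (j : ℕ) {V : ℕ → Type} (Ω : ∀ n, SimpleGraph (V n)) : Prop :=
  Even j ∨ ∀ n, (Ω n).IsBipartite

variable {k j : ℕ} {hk : 2 ≤ k} {V : ℕ → Type} {Ω : ∀ n, SimpleGraph (V n)}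

lemma par_word {V : Type} {Ω : SimpleGraph V} (α : Labelling (Tpow k j hk) Ω) {u v : V}
    (p : Ω.Walk u v) : par k (word α p) = ((-1) ^ j) ^ p.length := by
  induction p with
  | nil => simp [word]
  | @cons u v w h p ih =>
    rw [word_cons, map_mul, ih, SimpleGraph.Walk.length_cons, pow_succ', par_Tpow (α.2.1 _)]

lemma relators_even_iff (α : Labellings (Tpow k j hk) Ω) :
    (∀ r ∈ relators α, r ∈ Ev k) ↔ EvenCase j Ω := by
  constructor
  · intro h
    by_cases hj : Even j
    · exact Or.inl hj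
    · right
      intro n
      rw [SimpleGraph.IsBipartite, SimpleGraph.two_colorable_iff_forall_loop_even]
      intro v p
      have h1 := h _ ⟨n, v, p, rfl⟩
      rw [Ev, MonoidHom.mem_ker, par_word, (Nat.not_even_iff_odd.mp hj).neg_one_pow] at h1
      by_contra h2
      rw [(Nat.not_even_iff_odd.mp h2).neg_one_pow] at h1
      exact absurd h1 (by decide)
  · rintro h r ⟨n, v, p, rfl⟩
    rw [Ev, MonoidHom.mem_ker, par_word]
    rcases h with h | h
    · rw [h.neg_one_pow, one_pow]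
    · have h1 := h n
      rw [SimpleGraph.IsBipartite, SimpleGraph.two_colorable_iff_forall_loop_even] at h1
      rw [← pow_mul, mul_comm, pow_mul, (h1 v p).neg_one_pow, one_pow]

lemma card_par_range (hk : 2 ≤ k) : Nat.card (par k).range = 2 := by
  have h1 : (par k).range = ⊤ := by
    rw [eq_top_iff]
    rintro x -
    rcases Int.units_eq_one_or x with h | h
    · rw [h]; exact Subgroup.one_mem _
    · exact ⟨FreeGroup.of ⟨0, by omega⟩, by rw [h]; exact par_T ⟨⟨0, by omega⟩, Or.inl rfl⟩⟩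
  rw [h1, Subgroup.card_top, Nat.card_eq_fintype_card]
  decide

lemma index_evPart_two (hk' : 2 ≤ k) {S : LabelSet (FreeGroup (Fin k))} (α : Labellings S Ω)
    (h : ∀ r ∈ relators α, r ∈ Ev k) : (evPart α).index = 2 := by
  have hn : (Ev k).Normal := by
    unfold Ev
    infer_instance
  have hle : Subgroup.normalClosure (relators α) ≤ Ev k :=
    Subgroup.normalClosure_le_normal h
  unfold evPart
  rw [Subgroup.index_map, QuotientGroup.ker_mk', sup_eq_left.mpr hle,
    MonoidHom.range_eq_top.mpr (QuotientGroup.mk'_surjective _), Subgroup.index_top, mul_one]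
  unfold Ev
  rw [Subgroup.index_ker]
  exact card_par_range hk'

lemma evPart_eq_top {S : LabelSet (FreeGroup (Fin k))} (α : Labellings S Ω)
    (h : ¬ ∀ r ∈ relators α, r ∈ Ev k) : evPart α = ⊤ := by
  push Not at h
  obtain ⟨r, hr, hrE⟩ := h
  rw [eq_top_iff]
  rintro x -
  obtain ⟨g, rfl⟩ := QuotientGroup.mk'_surjective _ x
  by_cases hg : g ∈ Ev k
  · exact ⟨g, hg, rfl⟩
  · refine ⟨g * r⁻¹, mul_inv_mem_Ev hg hrE, ?_⟩
    have h1 : cl α r = 1 :=
      (QuotientGroup.eq_one_iff r).mpr (Subgroup.subset_normalClosure hr)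
    rw [map_mul, map_inv, h1, inv_one, mul_one]

lemma evPart_finiteIndex (α : Labellings (Tpow k j hk) Ω) : (evPart α).FiniteIndex := by
  by_cases h : ∀ r ∈ relators α, r ∈ Ev k
  · exact ⟨by rw [index_evPart_two hk α h]; exact two_ne_zero⟩
  · rw [evPart_eq_top α h]
    infer_instance

lemma finiteIndex_iff {α : Labellings (Tpow k j hk) Ω} {G : Type u} [Group G] (h : Kills α G)
    (Γ' : Subgroup (Gam α)) : Γ'.FiniteIndex ↔ Γ' = ⊤ ∨ Γ' = evPart α := by
  constructor
  · intro hΓ'
    have hle := (h Γ' hΓ' 1).1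
    by_cases hx : ∃ x ∈ Γ', x ∉ evPart α
    · left
      obtain ⟨x, hx, hx'⟩ := hx
      rw [eq_top_iff]
      rintro y -
      by_cases hy : y ∈ evPart α
      · exact hle hy
      · have := Γ'.mul_mem (hle (mul_inv_mem_evPart hy hx')) hx
        simpa using this
    · push Not at hx
      right
      exact le_antisymm hx hle
  · rintro (h | h)
    · rw [h]; infer_instance
    · rw [h]; exact evPart_finiteIndex α

/-- All homomorphisms from `Γ_α⁺` are trivial. -/
lemma Kills.trivial {α : Labellings (Tpow k j hk) Ω} {G : Type u} [Group G] (h : Kills α G)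
    (φ : evPart α →* G) : φ = 1 := by
  ext x
  exact (h (evPart α) (evPart_finiteIndex α) φ).2 x x.2

/-- The homomorphism of the free group which maps all generators to `a`, for an involution `a`. -/
lemma eq_of_par {G : Type u} [Group G] (ψ : FreeGroup (Fin k) →* G) (a : G) (ha : a * a = 1)
    (hψ : ∀ i, ψ (FreeGroup.of i) = a) : ∀ g ∈ Ev k, ψ g = 1 := by
  let A : Subgroup G := Subgroup.zpowers a
  have hA : ∀ g : FreeGroup (Fin k), (par k g = 1 ∧ ψ g = 1) ∨ (par k g = -1 ∧ ψ g = a) := by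
    intro g
    induction g using FreeGroup.induction_on with
    | C1 => left; simp
    | of i => right; exact ⟨par_T ⟨i, Or.inl rfl⟩, hψ i⟩
    | inv_of i h =>
      right
      refine ⟨par_T ⟨i, Or.inr rfl⟩, ?_⟩
      rw [map_inv, hψ i]
      exact inv_eq_of_mul_eq_one_left ha
    | mul x y hx hy =>
      rw [map_mul, map_mul]
      rcases hx with ⟨h1, h2⟩ | ⟨h1, h2⟩ <;> rcases hy with ⟨h3, h4⟩ | ⟨h3, h4⟩ <;>
        rw [h1, h2, h3, h4] <;> simp [ha]
  intro g hg
  rw [Ev, MonoidHom.mem_ker] at hg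
  rcases hA g with h | h
  · exact h.2
  · rw [hg] at h
    exact absurd h.1 (by decide)

/-- The description of the homomorphisms from `Γ_α`. -/
lemma homs_iff {α : Labellings (Tpow k j hk) Ω} {G : Type u} [Group G] (h : Kills α G)
    (ψ : FreeGroup (Fin k) →* G) :
    (∃ φ : Gam α →* G, φ.comp (cl α) = ψ) ↔
      ∃ a : G, a * a = 1 ∧ (∀ i, ψ (FreeGroup.of i) = a) ∧ (a = 1 ∨ EvenCase j Ω) := by
  constructor
  · rintro ⟨φ, rfl⟩
    have hkill : ∀ g ∈ Ev k, φ (cl α g) = 1 := by
      intro g hg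
      exact (h ⊤ inferInstance (φ.comp (Subgroup.subtype _))).2 ⟨cl α g, trivial⟩ ⟨g, hg, rfl⟩
    let i0 : Fin k := ⟨0, by omega⟩
    have hT : ∀ i : Fin k, FreeGroup.of i ∉ Ev k := by
      intro i hi
      rw [Ev, MonoidHom.mem_ker, par_T ⟨i, Or.inl rfl⟩] at hi
      exact absurd hi (by decide)
    refine ⟨φ (cl α (FreeGroup.of i0)), ?_, ?_, ?_⟩
    · rw [← map_mul, ← map_mul]
      apply hkill
      rw [Ev, MonoidHom.mem_ker, map_mul, par_T ⟨i0, Or.inl rfl⟩]
      decide
    · intro i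
      have h1 := hkill _ (mul_inv_mem_Ev (hT i) (hT i0))
      rw [map_mul, map_mul, map_inv, map_inv, mul_inv_eq_one] at h1
      exact h1
    · by_cases hE : EvenCase j Ω
      · exact Or.inr hE
      · left
        rw [← relators_even_iff α] at hE
        have htop := evPart_eq_top α hE
        have h1 : cl α (FreeGroup.of i0) ∈ evPart α := by rw [htop]; trivial
        exact (h ⊤ inferInstance (φ.comp (Subgroup.subtype _))).2 ⟨_, trivial⟩ h1
  · rintro ⟨a, ha, hψ, hE⟩
    have hker : Subgroup.normalClosure (relators α) ≤ ψ.ker := by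
      apply Subgroup.normalClosure_le_normal
      intro r hr
      rcases hE with hE | hE
      · have h1 : ψ = 1 := by
          ext i
          rw [hψ i, hE]
          rfl
        rw [h1]
        rfl
      · exact eq_of_par ψ a ha hψ r ((relators_even_iff α).mpr hE r hr)
    exact ⟨QuotientGroup.lift _ ψ hker, by ext i; rfl⟩

/-- The subgroups of finite index of `Γ` are `Γ` and `E`. -/
def OnlyFI (Γ : Type) [Group Γ] (E : Subgroup Γ) : Prop :=
  ∀ Γ' : Subgroup Γ, Γ'.FiniteIndex ↔ Γ' = ⊤ ∨ Γ' = E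

/-- The group `E` is perfect, and all its homomorphisms to groups in `Tame 𝓕` are trivial. -/
def Invisible {I : Type} (𝓕 : I → Type u) [∀ i, Group (𝓕 i)] (E : Type) [Group E] : Prop :=
  commutator E = ⊤ ∧ ∀ (G : Type u) [Group G], Tame 𝓕 G → ∀ φ : E →* G, φ = 1

/-- The homomorphism `ψ` maps all generators of the free group to the same element `a` with
`a² = 1`, and `a = 1` unless `c` holds. -/
def ConstInv {k : ℕ} {G : Type u} [Group G] (ψ : FreeGroup (Fin k) →* G) (c : Prop) : Prop :=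
  ∃ a : G, a * a = 1 ∧ (∀ i, ψ (FreeGroup.of i) = a) ∧ (a = 1 ∨ c)

/-- The homomorphisms from `Γ` to the groups in `Tame 𝓕`, considered as homomorphisms of the free
group by composition with `π`, are the homomorphisms `ψ` with `ConstInv ψ c`. -/
def HomsAre {I : Type} (𝓕 : I → Type u) [∀ i, Group (𝓕 i)] {k : ℕ} {Γ : Type} [Group Γ]
    (π : FreeGroup (Fin k) →* Γ) (c : Prop) : Prop :=
  ∀ (G : Type u) [Group G], Tame 𝓕 G → ∀ ψ : FreeGroup (Fin k) →* G,
    (∃ φ : Γ →* G, φ.comp π = ψ) ↔ ConstInv ψ c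

/-- The complete description of `Γ_α` as seen by the groups in the class `Tame 𝓕`: the subgroups
of finite index are `Γ_α` and `Γ_α⁺`; the group `Γ_α⁺` is perfect and its homomorphisms to tame
groups are trivial; the homomorphisms from `Γ_α` to tame groups are known. -/
def Rigid {I : Type} (𝓕 : I → Type u) [∀ i, Group (𝓕 i)]
    (α : Labellings (Tpow k j hk) Ω) : Prop :=
  OnlyFI (Gam α) (evPart α) ∧ Invisible 𝓕 (evPart α) ∧ HomsAre 𝓕 (cl α) (EvenCase j Ω)

lemma kills_of_tame {α : Labellings (Tpow k j hk) Ω} {I : Type} (𝓕 : I → Type u)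
    [∀ i, Group (𝓕 i)] (hperm : ∀ m : ℕ, Kills α (Equiv.Perm (Fin m)))
    (hFP : ∀ (p : Σ n : ℕ, Finset (FreeGroup (Fin n))),
      Kills α (PresentedGroup (p.2 : Set (FreeGroup (Fin p.1)))))
    (hF : ∀ i, Kills α (𝓕 i)) {G : Type u} [Group G] (hG : Tame 𝓕 G) : Kills α G := by
  have hinj : ∀ (H : Type u) [Group H] (H' : Type _) [Group H'] (f : H →* H'),
      Function.Injective f → Kills α H' → Kills α H := by
    intro H _ H' _ f hf hH' Γ' hΓ' φ
    obtain ⟨h1, h2⟩ := hH' Γ' hΓ' (f.comp φ)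
    exact ⟨h1, fun x hx => hf (by rw [map_one]; exact h2 x hx)⟩
  apply hG (fun H _ => Kills α H)
  · rintro H _ ⟨n, R, ι, hι⟩
    have h0 := hFP ⟨n, R⟩
    intro Γ' hΓ' φ
    obtain ⟨h1, h2⟩ := h0 Γ' hΓ' (ι.comp φ)
    exact ⟨h1, fun x hx => hι (by rw [map_one]; exact h2 x hx)⟩
  · rintro H _ i ⟨e⟩
    exact hinj H (𝓕 i) e.toMonoidHom e.injective (hF i)
  · intro H _ hD
    exact kills_detected hperm hD

theorem typical_rigid [∀ n, Finite (V n)] {l : Filter (Labellings (Tpow k j hk) Ω)}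
    (hl : Typical l) (hj : 1 ≤ j) (hΩ : InfCyc Ω) {I : Type} [Countable I] (𝓕 : I → Type u)
    [∀ i, Group (𝓕 i)] [∀ i, Countable (𝓕 i)] : ∀ᶠ α in l, Rigid 𝓕 α := by
  have := typical_countableInter hl
  have h1 : ∀ᶠ α in l, ∀ i, Kills α (𝓕 i) := by
    rw [eventually_countable_forall]
    exact fun i => typical_kills hl hk hΩ (good_Tpow hk hj) (quot_mem_Ev_Tpow hk) (𝓕 i)
  have h2 : ∀ᶠ α in l, ∀ m : ℕ, Kills α (Equiv.Perm (Fin m)) := by
    rw [eventually_countable_forall]
    exact fun m => typical_kills hl hk hΩ (good_Tpow hk hj) (quot_mem_Ev_Tpow hk) _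
  have h3 : ∀ᶠ α in l, ∀ (p : Σ n : ℕ, Finset (FreeGroup (Fin n))),
      Kills α (PresentedGroup (p.2 : Set (FreeGroup (Fin p.1)))) := by
    rw [eventually_countable_forall]
    intro p
    have : Countable (PresentedGroup (p.2 : Set (FreeGroup (Fin p.1)))) :=
      (QuotientGroup.mk'_surjective (Subgroup.normalClosure _)).countable
    exact typical_kills hl hk hΩ (good_Tpow hk hj) (quot_mem_Ev_Tpow hk) _
  filter_upwards [h1, h2, h3] with α a1 a2 a3
  have hK : ∀ (G : Type u) [Group G], Tame 𝓕 G → Kills α G :=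
    fun G _ hG => kills_of_tame 𝓕 a2 a3 a1 hG
  have hK0 : ∀ (G : Type) [Group G], Tame (fun _ : Empty => PUnit.{1}) G → Kills α G :=
    fun G _ hG => kills_of_tame _ a2 a3 (fun i => i.elim) hG
  refine ⟨fun Γ' => finiteIndex_iff (a2 0) Γ', ⟨?_, fun G _ hG φ => (hK G hG).trivial φ⟩,
    fun G _ hG ψ => homs_iff (hK G hG) ψ⟩
  have h4 := (hK0 (Abelianization (evPart α)) (tame_of_comm _)).trivial Abelianization.of
  rw [← Abelianization.ker_of, h4]
  exact MonoidHom.ker_one

end Pool.Agent.H16M
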