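import Pool.Agent.H16M.Kills

/-!
# Classes of groups closed under detection
-/

set_option autoImplicit false

open Filter

universe u v

namespace Pool.Agent.H16M

/-- `H` is isomorphic to a subgroup of a finitely presented group. -/
def SubFP (H : Type u) [Group H] : Prop :=
  ∃ (n : ℕ) (R : Finset (FreeGroup (Fin n)))
    (ι : H →* PresentedGroup (R : Set (FreeGroup (Fin n)))), Function.Injective ι

/-- The smallest class of groups which contains the subgroups of finitely presented groups and the
groups `𝓕 i` (up to isomorphism) and which is closed under detection. -/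
def Tame {I : Type} (𝓕 : I → Type u) [∀ i, Group (𝓕 i)] (G : Type u) [Group G] : Prop :=
  ∀ P : (∀ (H : Type u) [Group H], Prop),
    (∀ (H : Type u) [Group H], SubFP H → P H) →
    (∀ (H : Type u) [Group H] (i : I), Nonempty (H ≃* 𝓕 i) → P H) →
    (∀ (H : Type u) [Group H], Detected P H → P H) → P G

variable {I : Type} {𝓕 : I → Type u} [∀ i, Group (𝓕 i)]

lemma tame_of_subFP {G : Type u} [Group G] (h : SubFP G) : Tame 𝓕 G :=
  fun _ h1 _ _ => h1 G h

lemma tame_member (i : I) : Tame 𝓕 (𝓕 i) :=
  fun _ _ h2 _ => h2 (𝓕 i) i ⟨MulEquiv.refl _⟩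

lemma tame_of_detected {G : Type u} [Group G] (h : Detected.{u} (fun H _ => Tame 𝓕 H) G) :
    Tame 𝓕 G := by
  intro P h1 h2 h3
  apply h3 G
  intro L hL h4
  obtain ⟨L', H, iH, f, hL', hT, hf⟩ := h L hL h4
  exact ⟨L', H, iH, f, hL', hT P h1 h2 h3, hf⟩

lemma three_top {A : Type u} {B : Type v} [Group A] [Group B] (f : A →* B) (h : ThreeValues f) :
    ThreeValues (f.comp (Subgroup.subtype (⊤ : Subgroup A))) := by
  obtain ⟨x, y, z, h1, h2, h3⟩ := h
  exact ⟨⟨x, trivial⟩, ⟨y, trivial⟩, ⟨z, trivial⟩, h1, h2, h3⟩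

/-- A simpler form of detection, without passing to a subgroup of finite index. -/
lemma tame_of_detected' {G : Type u} [Group G]
    (h : ∀ L : Subgroup G, L.FG → ThreeValues (id : L → L) →
      ∃ (H : Type u) (_ : Group H) (f : L →* H), Tame 𝓕 H ∧ ThreeValues f) : Tame 𝓕 G := by
  apply tame_of_detected
  intro L hL h3
  obtain ⟨H, iH, f, hH, hf⟩ := h L hL h3
  exact ⟨⊤, H, iH, f.comp (Subgroup.subtype _), inferInstance, hH, three_top f hf⟩

lemma ThreeValues.comp_injective {A : Type u} {B : Type v} {C : Type*} {f : A → B} {g : B → C}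
    (hg : Function.Injective g) (h : ThreeValues f) : ThreeValues (g ∘ f) := by
  obtain ⟨x, y, z, h1, h2, h3⟩ := h
  exact ⟨x, y, z, fun h => h1 (hg h), fun h => h2 (hg h), fun h => h3 (hg h)⟩

/-- Tame groups are closed under subgroups. -/
lemma tame_of_injective {G G' : Type u} [Group G] [Group G'] (f : G →* G')
    (hf : Function.Injective f) (h : Tame 𝓕 G') : Tame 𝓕 G := by
  apply tame_of_detected'
  intro L _ h3
  refine ⟨G', inferInstance, f.comp L.subtype, h, ?_⟩
  exact h3.comp_injective (g := fun x : L => f x) (hf.comp Subtype.val_injective)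

/-- A group is tame if all its finitely generated subgroups are. -/
lemma tame_of_local {G : Type u} [Group G] (h : ∀ L : Subgroup G, L.FG → Tame 𝓕 L) :
    Tame 𝓕 G := by
  apply tame_of_detected'
  intro L hL h3
  exact ⟨L, inferInstance, MonoidHom.id _, h L hL, h3⟩

/-- Finite groups are finitely presented. -/
lemma subFP_of_finite (G : Type u) [Group G] [Finite G] : SubFP G := by
  classical
  obtain ⟨n, ⟨e⟩⟩ := Finite.exists_equiv_fin G
  let _ : Fintype G := Fintype.ofFinite G
  let R : Finset (FreeGroup (Fin n)) := Finset.univ.image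
    (fun p : G × G => FreeGroup.of (e p.1) * FreeGroup.of (e p.2) * (FreeGroup.of (e (p.1 * p.2)))⁻¹)
  let ι : G →* PresentedGroup (R : Set (FreeGroup (Fin n))) :=
    MonoidHom.mk' (fun g => PresentedGroup.of (e g)) (by
      intro g h
      have h1 : (PresentedGroup.mk (R : Set (FreeGroup (Fin n))))
          (FreeGroup.of (e g) * FreeGroup.of (e h) * (FreeGroup.of (e (g * h)))⁻¹) = 1 := by
        apply PresentedGroup.one_of_mem
        simp only [R, Finset.coe_image, Finset.coe_univ, Set.image_univ, Set.mem_range]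
        exact ⟨(g, h), rfl⟩
      rw [map_mul, map_mul, map_inv, mul_inv_eq_one] at h1
      exact h1.symm)
  let θ : PresentedGroup (R : Set (FreeGroup (Fin n))) →* G :=
    PresentedGroup.toGroup (f := fun i => e.symm i) (by
      intro r hr
      simp only [R, Finset.coe_image, Finset.coe_univ, Set.image_univ, Set.mem_range] at hr
      obtain ⟨⟨g, h⟩, rfl⟩ := hr
      simp)
  refine ⟨n, R, ι, ?_⟩
  have hleft : Function.LeftInverse θ ι := by
    intro g
    change θ (PresentedGroup.of (e g)) = g
    rw [PresentedGroup.toGroup.of]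
    simp
  exact hleft.injective

lemma tame_of_finite (G : Type u) [Group G] [Finite G] : Tame 𝓕 G :=
  tame_of_subFP (subFP_of_finite G)

/-- Tame groups are closed under extensions. -/
lemma tame_of_ext {G Q : Type u} [Group G] [Group Q] (π : G →* Q) (hN : Tame 𝓕 π.ker)
    (hQ : Tame 𝓕 Q) : Tame 𝓕 G := by
  classical
  apply tame_of_detected
  intro L hL h3
  let ρ : L →* Q := π.comp L.subtype
  by_cases hρ : ThreeValues ρ
  · exact ⟨⊤, Q, inferInstance, ρ.comp (Subgroup.subtype _), inferInstance, hQ, three_top ρ hρ⟩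
  · have hfr : Finite ρ.range := finite_of_not_three hρ
    have hfi : ρ.ker.FiniteIndex := by
      have : Finite (L ⧸ ρ.ker) := (QuotientGroup.quotientKerEquivRange ρ).toEquiv.finite_iff.mpr hfr
      exact Subgroup.finiteIndex_of_finite_quotient
    by_cases hk : ThreeValues (id : ρ.ker → ρ.ker)
    · let f : ρ.ker →* π.ker :=
        (L.subtype.comp ρ.ker.subtype).codRestrict π.ker (fun x => x.2)
      refine ⟨ρ.ker, π.ker, inferInstance, f, hfi, hN, ?_⟩
      refine hk.comp_injective (g := f) ?_
      intro a b hab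
      apply Subtype.ext
      apply Subtype.ext
      exact congrArg (fun x : π.ker => (x : G)) hab
    · have hfk : Finite ρ.ker := by
        have := finite_of_not_three hk
        rw [Set.range_id] at this
        exact Set.finite_univ_iff.mp this
      have hfL : Finite L := by
        have : Finite (L ⧸ ρ.ker) := Subgroup.finite_quotient_of_finiteIndex
        exact Finite.of_equiv _ (Subgroup.groupEquivQuotientProdSubgroup (s := ρ.ker)).symm
      refine ⟨⊤, L, inferInstance, (MonoidHom.id L).comp (Subgroup.subtype _), inferInstance,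
        tame_of_finite L, three_top _ h3⟩

/-- Tame groups are closed under overgroups of finite index. -/
lemma tame_of_finiteIndex {G : Type u} [Group G] (N : Subgroup G) (hN : N.FiniteIndex)
    (h : Tame 𝓕 N) : Tame 𝓕 G := by
  -- pass to the normal core
  have h1 : N.normalCore.FiniteIndex := inferInstance
  have h2 : Finite (G ⧸ N.normalCore) := Subgroup.finite_quotient_of_finiteIndex
  refine tame_of_ext (QuotientGroup.mk' N.normalCore) ?_ (tame_of_finite _)
  refine tame_of_injective (Subgroup.inclusion ?_) (Subgroup.inclusion_injective _) h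
  rw [QuotientGroup.ker_mk']
  exact N.normalCore_le

lemma tame_prod {G H : Type u} [Group G] [Group H] (hG : Tame 𝓕 G) (hH : Tame 𝓕 H) :
    Tame 𝓕 (G × H) := by
  refine tame_of_ext (MonoidHom.fst G H) ?_ hG
  refine tame_of_injective ((MonoidHom.snd G H).comp (Subgroup.subtype _)) ?_ hH
  rintro ⟨⟨a, b⟩, ha⟩ ⟨⟨a', b'⟩, ha'⟩ hab
  have h1 : a = 1 := ha
  have h2 : a' = 1 := ha'
  have h3 : b = b' := hab
  subst h1 h2 h3
  rfl

/-- Groups which are residually tame are tame. -/
lemma tame_of_residual {G : Type u} [Group G]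
    (h : ∀ g : G, g ≠ 1 → ∃ (H : Type u) (_ : Group H) (f : G →* H), Tame 𝓕 H ∧ f g ≠ 1) :
    Tame 𝓕 G := by
  apply tame_of_detected'
  rintro L - ⟨x, y, z, h1, h2, h3⟩
  have hsep : ∀ a b : L, a ≠ b →
      ∃ (H : Type u) (_ : Group H) (f : L →* H), Tame 𝓕 H ∧ f a ≠ f b := by
    intro a b hab
    obtain ⟨H, iH, f, hH, hf⟩ := h ((a : G) * (b : G)⁻¹) (by
      intro h0
      rw [mul_inv_eq_one] at h0
      exact hab (Subtype.ext h0))
    refine ⟨H, iH, f.comp L.subtype, hH, ?_⟩
    intro h0
    apply hf
    rw [map_mul, map_inv, mul_inv_eq_one]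
    exact h0
  obtain ⟨H1, i1, f1, t1, e1⟩ := hsep x y h1
  obtain ⟨H2, i2, f2, t2, e2⟩ := hsep x z h2
  obtain ⟨H3, i3, f3, t3, e3⟩ := hsep y z h3
  refine ⟨H1 × H2 × H3, inferInstance, f1.prod (f2.prod f3), tame_prod t1 (tame_prod t2 t3),
    x, y, z, ?_, ?_, ?_⟩
  · intro h0; exact e1 (congrArg (fun p => p.1) h0)
  · intro h0; exact e2 (congrArg (fun p => p.2.1) h0)
  · intro h0; exact e3 (congrArg (fun p => p.2.2) h0)

/-- Tame groups are closed under arbitrary products. -/
lemma tame_pi {J : Type u} (G : J → Type u) [∀ j, Group (G j)] (h : ∀ j, Tame 𝓕 (G j)) :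
    Tame 𝓕 (∀ j, G j) := by
  apply tame_of_residual
  intro g hg
  obtain ⟨j, hj⟩ : ∃ j, g j ≠ 1 := by
    by_contra hcon
    push Not at hcon
    exact hg (funext hcon)
  exact ⟨G j, inferInstance, Pi.evalMonoidHom G j, h j, hj⟩

/-- The integers, in any universe, are a subgroup of a finitely presented group. -/
lemma tame_int : Tame 𝓕 (ULift.{u} (Multiplicative ℤ)) := by
  apply tame_of_subFP
  -- the free group on one generator with no relations
  let P := PresentedGroup ((∅ : Finset (FreeGroup (Fin 1))) : Set (FreeGroup (Fin 1)))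
  let θ : P →* Multiplicative ℤ := PresentedGroup.toGroup (f := fun _ => Multiplicative.ofAdd 1)
    (by intro r hr; simp at hr)
  let ι : Multiplicative ℤ →* P := zpowersHom P (PresentedGroup.of 0)
  have hleft : Function.LeftInverse θ ι := by
    intro n
    change θ ((PresentedGroup.of 0 : P) ^ (Multiplicative.toAdd n)) = n
    rw [map_zpow, PresentedGroup.toGroup.of]
    rw [← ofAdd_zsmul]
    simp
  refine ⟨1, ∅, ι.comp MulEquiv.ulift.toMonoidHom, ?_⟩
  exact hleft.injective.comp MulEquiv.ulift.injective

/-- A group is locally indicable if each of its nontrivial finitely generated subgroups has a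
nontrivial homomorphism to the integers. -/
def LocallyIndicable (G : Type u) [Group G] : Prop :=
  ∀ L : Subgroup G, L.FG → L ≠ ⊥ → ∃ f : L →* Multiplicative ℤ, f ≠ 1

lemma three_of_int {A : Type u} [Group A] (f : A →* Multiplicative ℤ) (hf : f ≠ 1) :
    ThreeValues f := by
  obtain ⟨a, ha⟩ : ∃ a, f a ≠ 1 := by
    by_contra hcon
    push Not at hcon
    exact hf (MonoidHom.ext hcon)
  have ha' : Multiplicative.toAdd (f a) ≠ 0 := ha
  refine ⟨1, a, a * a, ?_, ?_, ?_⟩
  · rw [map_one]; exact fun h => ha h.symm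
  · rw [map_one, map_mul]
    intro h
    have h1 : (0 : ℤ) = Multiplicative.toAdd (f a) + Multiplicative.toAdd (f a) :=
      congrArg Multiplicative.toAdd h
    omega
  · rw [map_mul]
    intro h
    have h1 : Multiplicative.toAdd (f a) =
      Multiplicative.toAdd (f a) + Multiplicative.toAdd (f a) := congrArg Multiplicative.toAdd h
    omega

lemma exists_tame_of_int {A : Type u} [Group A] (f : A →* Multiplicative ℤ) (hf : f ≠ 1) :
    ∃ (H : Type u) (_ : Group H) (f : A →* H), Tame 𝓕 H ∧ ThreeValues f :=
  ⟨ULift.{u} (Multiplicative ℤ), inferInstance, MulEquiv.ulift.symm.toMonoidHom.comp f, tame_int,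
    (three_of_int f hf).comp_injective (g := MulEquiv.ulift.symm) MulEquiv.ulift.symm.injective⟩

lemma tame_of_locallyIndicable {G : Type u} [Group G] (h : LocallyIndicable G) : Tame 𝓕 G := by
  apply tame_of_detected'
  intro L hL h3
  have hne : L ≠ ⊥ := by
    rintro rfl
    obtain ⟨x, y, z, h1, -⟩ := h3
    exact h1 (Subsingleton.elim _ _)
  obtain ⟨f, hf⟩ := h L hL hne
  exact exists_tame_of_int f hf

/-- Infinite finitely generated abelian groups map onto the integers. -/
lemma exists_int_of_comm {A : Type u} [CommGroup A] (hfg : Group.FG A) (hinf : Infinite A) :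
    ∃ f : A →* Multiplicative ℤ, f ≠ 1 := by
  classical
  obtain ⟨n, ι, hι, p, hp, e, ⟨eqv⟩⟩ := AddCommGroup.equiv_free_prod_directSum_zmod (Additive A)
  by_cases hn : n = 0
  · exfalso
    subst hn
    have h1 : Finite (DirectSum ι fun i => ZMod (p i ^ e i)) := by
      have : ∀ i, NeZero (p i ^ e i) := fun i => ⟨pow_ne_zero _ (hp i).ne_zero⟩
      let _ : ∀ i, Fintype (ZMod (p i ^ e i)) := fun i => ZMod.fintype _
      exact Finite.of_equiv _ (DirectSum.addEquivProd (fun i => ZMod (p i ^ e i))).symm.toEquiv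
    have h2 : Finite (Fin 0 →₀ ℤ) := inferInstance
    have h3 : Finite (Additive A) := Finite.of_equiv _ eqv.symm.toEquiv
    have h4 : Finite A := h3
    exact not_finite A
  · let i0 : Fin n := ⟨0, Nat.pos_of_ne_zero hn⟩
    let f : Additive A →+ ℤ :=
      (Finsupp.applyAddHom i0).comp ((AddMonoidHom.fst _ _).comp eqv.toAddMonoidHom)
    refine ⟨AddMonoidHom.toMultiplicativeRight f, ?_⟩
    intro h0
    have h1 : f (eqv.symm (Finsupp.single i0 1, 0)) = 1 := by
      simp [f]
    have h2 := DFunLike.congr_fun h0 (Additive.toMul (eqv.symm (Finsupp.single i0 1, 0)))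
    have h3 : f (eqv.symm (Finsupp.single i0 1, 0)) = 0 := h2
    rw [h1] at h3
    exact one_ne_zero h3

/-- Abelian groups are tame. -/
lemma tame_of_comm (A : Type u) [CommGroup A] : Tame 𝓕 A := by
  apply tame_of_local
  intro L hL
  by_cases hfin : Finite L
  · exact tame_of_finite L
  · have hinf : Infinite L := not_finite_iff_infinite.mp hfin
    apply tame_of_detected
    intro M hM h3
    by_cases hfM : Finite M
    · exact ⟨⊤, M, inferInstance, (MonoidHom.id M).comp (Subgroup.subtype _), inferInstance,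
        tame_of_finite M, three_top _ h3⟩
    · have hinfM : Infinite M := not_finite_iff_infinite.mp hfM
      have hfgM : Group.FG M := (Group.fg_iff_subgroup_fg M).mpr hM
      obtain ⟨f, hf⟩ := exists_int_of_comm hfgM hinfM
      obtain ⟨H, iH, g, hH, hg⟩ := exists_tame_of_int (𝓕 := 𝓕) f hf
      exact ⟨⊤, H, iH, g.comp (Subgroup.subtype _), inferInstance, hH, three_top g hg⟩

end Pool.Agent.H16M
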